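import Pool.Agent.H746R3.Inv.Circ

/-!
# Approximation of circuits by functions of low degree (Razborov, Smolensky)
-/

namespace H746R3.Inv

open Finset

variable {p : ℕ} [Fact p.Prime] {K : Type*} [Field K] [Algebra (ZMod p) K]
  {V : Type*} [Fintype V] [DecidableEq V]

/-- the number of vectors with sum 0 over a nonempty set of positions -/
theorem count_zero {ι : Type*} [Fintype ι] [DecidableEq ι] (T : Finset ι) (hT : T.Nonempty) :
    (univ.filter fun a : ι → ZMod p => ∑ i ∈ T, a i = 0).card * p ≤ p ^ Fintype.card ι := by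
  obtain ⟨i₀, hi₀⟩ := hT
  have h1 : (univ.filter fun a : ι → ZMod p => ∑ i ∈ T, a i = 0).card * p =
      ((univ.filter fun a : ι → ZMod p => ∑ i ∈ T, a i = 0) ×ˢ
        (univ : Finset (ZMod p))).card := by
    rw [Finset.card_product, Finset.card_univ, ZMod.card]
  have h2 : p ^ Fintype.card ι = (univ : Finset (ι → ZMod p)).card := by
    rw [Finset.card_univ, Fintype.card_fun, ZMod.card]
  rw [h1, h2]
  refine Finset.card_le_card_of_injOn (fun q => q.1 + Pi.single i₀ q.2)
    (fun _ _ => Finset.mem_coe.2 (Finset.mem_univ _)) ?_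
  rintro ⟨a, c⟩ ha ⟨a', c'⟩ ha' h
  simp only [Finset.coe_product, Set.mem_prod, Finset.mem_coe, Finset.mem_filter,
    Finset.mem_univ, true_and, and_true] at ha ha'
  simp only at h
  have hsum : ∀ (a : ι → ZMod p) (c : ZMod p), ∑ i ∈ T, a i = 0 →
      ∑ i ∈ T, (a + Pi.single i₀ c : ι → ZMod p) i = c := by
    intro a c ha
    simp only [Pi.add_apply]
    rw [Finset.sum_add_distrib, ha, zero_add, Finset.sum_eq_single i₀, Pi.single_eq_same]
    · intro b _ hb
      exact Pi.single_eq_of_ne hb _
    · intro h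
      exact absurd hi₀ h
  have hc : c = c' := by
    rw [← hsum a c ha, ← hsum a' c' ha', h]
  subst hc
  have : a = a' := add_right_cancel h
  rw [this]

omit [Fintype V] [DecidableEq V] in
theorem single_step {ι : Type*} [Fintype ι] (w : ι → (V → Bool) → K)
    (X : Finset (V → Bool))
    (hX : ∀ y ∈ X, (∀ i, w i y = 0 ∨ w i y = 1) ∧ ∃ i, w i y = 1) :
    ∃ a : ι → ZMod p,
      ∃ X' : Finset (V → Bool), (∀ y ∈ X, ∑ i, algebraMap (ZMod p) K (a i) * w i y = 0 → y ∈ X') ∧
        X' ⊆ X ∧ X'.card * p ≤ X.card := by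
  classical
  set bad : (ι → ZMod p) → Finset (V → Bool) := fun a =>
    X.filter fun y => ∑ i, algebraMap (ZMod p) K (a i) * w i y = 0 with hbad
  have h1 : ∑ a : ι → ZMod p, (bad a).card * p ≤ ∑ _a : ι → ZMod p, X.card := by
    have e1 : ∑ a : ι → ZMod p, (bad a).card =
        ∑ y ∈ X, (univ.filter fun a : ι → ZMod p =>
          ∑ i, algebraMap (ZMod p) K (a i) * w i y = 0).card := by
      simp only [hbad, Finset.card_filter]
      exact Finset.sum_comm
    rw [← Finset.sum_mul, e1, Finset.sum_mul, Finset.sum_const, Finset.card_univ,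
      Fintype.card_fun, ZMod.card, smul_eq_mul, mul_comm (p ^ _)]
    rw [← smul_eq_mul (a := X.card), ← Finset.sum_const]
    refine Finset.sum_le_sum fun y hy => ?_
    obtain ⟨h01, i₀, hi₀⟩ := hX y hy
    have e2 : (univ.filter fun a : ι → ZMod p =>
          ∑ i, algebraMap (ZMod p) K (a i) * w i y = 0) =
        (univ.filter fun a : ι → ZMod p =>
          ∑ i ∈ univ.filter (fun i => w i y = 1), a i = 0) := by
      ext a
      simp only [Finset.mem_filter, Finset.mem_univ, true_and]
      have e3 : ∑ i, algebraMap (ZMod p) K (a i) * w i y =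
          algebraMap (ZMod p) K (∑ i ∈ univ.filter (fun i => w i y = 1), a i) := by
        rw [map_sum, Finset.sum_filter]
        refine Finset.sum_congr rfl fun i _ => ?_
        rcases h01 i with h | h
        · rw [h, mul_zero, if_neg zero_ne_one]
        · rw [h, mul_one, if_pos rfl]
      rw [e3]
      exact map_eq_zero_iff _ (algebraMap (ZMod p) K).injective
    rw [e2]
    exact count_zero _ ⟨i₀, by simp [hi₀]⟩
  obtain ⟨a, _, ha⟩ := Finset.exists_le_of_sum_le (Finset.univ_nonempty) h1
  exact ⟨a, bad a, fun y hy h => Finset.mem_filter.2 ⟨hy, h⟩, Finset.filter_subset _ _, ha⟩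

theorem algebraMap_pow (c : ZMod p) (hc : c ≠ 0) : (algebraMap (ZMod p) K c) ^ (p - 1) = 1 := by
  rw [← map_pow, ZMod.pow_card_sub_one_eq_one hc, map_one]

omit [Fintype V] in
/-- the function that is 1 if all `w i` vanish and 0 (up to errors) if some `w i` is 1 -/
theorem nor_approx {ι : Type*} [Fintype ι] (X₀ : Finset (V → Bool)) (D ℓ : ℕ)
    (w : ι → (V → Bool) → K)
    (hw : ∀ i, w i ∈ LD K V D) :
    ∃ q ∈ LD K V (ℓ * ((p - 1) * D)), ∃ E : Finset (V → Bool),
      E.card * p ^ ℓ ≤ X₀.card ∧ (∀ y, (∀ i, w i y = 0) → q y = 1) ∧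
      ∀ y ∈ X₀, y ∉ E → (∀ i, w i y = 0 ∨ w i y = 1) → (∃ i, w i y = 1) → q y = 0 := by
  classical
  set X : Finset (V → Bool) := X₀.filter fun y =>
    (∀ i, w i y = 0 ∨ w i y = 1) ∧ ∃ i, w i y = 1 with hX
  have hp : 1 < p := (Fact.out : p.Prime).one_lt
  have key : ∃ q ∈ LD K V (ℓ * ((p - 1) * D)), ∃ E ⊆ X,
      E.card * p ^ ℓ ≤ X.card ∧ (∀ y, (∀ i, w i y = 0) → q y = 1) ∧
      ∀ y ∈ X, y ∉ E → q y = 0 := by
    induction ℓ with
    | zero =>
      refine ⟨1, one_mem _, X, Finset.Subset.refl _, by simp, fun _ _ => rfl, ?_⟩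
      intro y h1 h2
      exact absurd h1 h2
    | succ ℓ ih =>
      obtain ⟨q, hq, E, hEX, hE, hq1, hq0⟩ := ih
      obtain ⟨a, E', hE'1, hE'2, hE'3⟩ := single_step (p := p) w E
        (fun y hy => (Finset.mem_filter.1 (hEX hy)).2)
      set s : (V → Bool) → K := fun y => ∑ i, algebraMap (ZMod p) K (a i) * w i y with hs
      have hsm : s ∈ LD K V D := by
        have : s = ∑ i, algebraMap (ZMod p) K (a i) • w i := by
          funext y
          rw [Finset.sum_apply]
          rfl
        rw [this]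
        exact Submodule.sum_mem _ fun i _ => Submodule.smul_mem _ _ (hw i)
      refine ⟨q * (1 - s ^ (p - 1)), ?_, E', hE'2.trans hEX, ?_, ?_, ?_⟩
      · have h1 : (1 - s ^ (p - 1)) ∈ LD K V ((p - 1) * D) :=
          Submodule.sub_mem _ (one_mem _) (pow_mem' hsm _)
        have h2 := mul_mem hq h1
        rwa [show ℓ * ((p - 1) * D) + (p - 1) * D = (ℓ + 1) * ((p - 1) * D) by ring] at h2
      · calc E'.card * p ^ (ℓ + 1) = (E'.card * p) * p ^ ℓ := by rw [pow_succ]; ring
          _ ≤ E.card * p ^ ℓ := Nat.mul_le_mul_right _ hE'3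
          _ ≤ X.card := hE
      · intro y hy
        have h1 : s y = 0 := by
          simp only [hs]
          exact Finset.sum_eq_zero fun i _ => by rw [hy i, mul_zero]
        rw [Pi.mul_apply, hq1 y hy, Pi.sub_apply, Pi.pow_apply, h1, zero_pow (by omega), one_mul]
        simp
      · intro y hyX hyE'
        rw [Pi.mul_apply]
        by_cases hyE : y ∈ E
        · have h1 : s y ≠ 0 := fun h => hyE' (hE'1 y hyE h)
          have h01 := (Finset.mem_filter.1 hyX).2.1
          have h2 : s y = algebraMap (ZMod p) K (∑ i ∈ univ.filter (fun i => w i y = 1), a i) := by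
            simp only [hs]
            rw [map_sum, Finset.sum_filter]
            refine Finset.sum_congr rfl fun i _ => ?_
            rcases h01 i with h | h
            · rw [h, mul_zero, if_neg zero_ne_one]
            · rw [h, mul_one, if_pos rfl]
          rw [Pi.sub_apply, Pi.pow_apply, h2, algebraMap_pow]
          · simp
          · intro h3
            rw [h3, map_zero] at h2
            exact h1 h2
        · rw [hq0 y hyX hyE, zero_mul]
  obtain ⟨q, hq, E, hEX, hE, hq1, hq0⟩ := key
  refine ⟨q, hq, E, hE.trans (Finset.card_filter_le _ _), hq1, ?_⟩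
  intro y hy hyE h1 h2
  exact hq0 y (Finset.mem_filter.2 ⟨hy, h1, h2⟩) hyE

theorem count_ofFn : ∀ {len : ℕ} (τ : Fin len → Bool),
    (List.ofFn τ).count true = ∑ i, (if τ i = true then 1 else 0) := by
  intro len
  induction len with
  | zero => intro τ; simp
  | succ len ih =>
    intro τ
    rw [List.ofFn_succ, List.count_cons, ih, Fin.sum_univ_succ, add_comm]
    congr 1
    cases τ 0 <;> simp

omit [Fintype V] in
/-- one gate -/
theorem gate_approx (X₀ : Finset (V → Bool)) (D ℓ : ℕ) (hℓ : 1 ≤ ℓ) (κ : Kind)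
    (hκ : ¬ κ.IsWild) (len : ℕ)
    (w : Fin len → (V → Bool) → K) (hw : ∀ i, w i ∈ LD K V D) :
    ∃ P ∈ LD K V (ℓ * ((p - 1) * D)), ∃ E : Finset (V → Bool),
      E.card * p ^ ℓ ≤ X₀.card ∧
      ∀ y ∈ X₀, y ∉ E → ∀ τ : Fin len → Bool, (∀ i, w i y = bK (τ i)) →
        P y = bK (κ.eval p (List.ofFn τ)) := by
  classical
  have hp : 1 < p := (Fact.out : p.Prime).one_lt
  cases κ with
  | and =>
    obtain ⟨q, hq, E, hE, hq1, hq0⟩ := nor_approx (p := p) X₀ D ℓ (fun i => 1 - w i)
      (fun i => Submodule.sub_mem _ (one_mem _) (hw i))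
    refine ⟨q, hq, E, hE, ?_⟩
    intro y hyX hy τ hτ
    simp only [Kind.eval]
    by_cases hall : ∀ i, τ i = true
    · rw [hq1 y (fun i => by rw [Pi.sub_apply, hτ i, hall i]; simp)]
      have : (List.ofFn τ).all id = true := by
        rw [List.all_eq_true]
        intro b hb
        obtain ⟨i, rfl⟩ := List.mem_ofFn' _ _ |>.1 hb
        exact hall i
      rw [this]; rfl
    · push Not at hall
      obtain ⟨i₀, hi₀⟩ := hall
      have hi₀' : τ i₀ = false := by simpa using hi₀
      rw [hq0 y hyX hy]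
      · have : (List.ofFn τ).all id = false := by
          rw [List.all_eq_false]
          exact ⟨τ i₀, List.mem_ofFn' _ _ |>.2 ⟨i₀, rfl⟩, by simp [hi₀']⟩
        rw [this]; rfl
      · intro i
        rw [Pi.sub_apply, hτ i]
        cases τ i <;> simp
      · exact ⟨i₀, by rw [Pi.sub_apply, hτ i₀, hi₀']; simp⟩
  | or =>
    obtain ⟨q, hq, E, hE, hq1, hq0⟩ := nor_approx (p := p) X₀ D ℓ w hw
    refine ⟨1 - q, Submodule.sub_mem _ (one_mem _) hq, E, hE, ?_⟩
    intro y hyX hy τ hτ
    simp only [Kind.eval]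
    by_cases hall : ∀ i, τ i = false
    · rw [Pi.sub_apply, hq1 y (fun i => by rw [hτ i, hall i]; rfl)]
      have : (List.ofFn τ).any id = false := by
        rw [List.any_eq_false]
        intro b hb
        obtain ⟨i, rfl⟩ := List.mem_ofFn' _ _ |>.1 hb
        simp [hall i]
      rw [this]; simp
    · push Not at hall
      obtain ⟨i₀, hi₀⟩ := hall
      have hi₀' : τ i₀ = true := by simpa using hi₀
      rw [Pi.sub_apply, hq0 y hyX hy]
      · have : (List.ofFn τ).any id = true := by
          rw [List.any_eq_true]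
          exact ⟨τ i₀, List.mem_ofFn' _ _ |>.2 ⟨i₀, rfl⟩, by simp [hi₀']⟩
        rw [this]; simp
      · intro i
        rw [hτ i]
        cases τ i <;> simp
      · exact ⟨i₀, by rw [hτ i₀, hi₀']; rfl⟩
  | mod =>
    set s : (V → Bool) → K := ∑ i, w i with hs
    have hsm : s ∈ LD K V D := Submodule.sum_mem _ fun i _ => hw i
    refine ⟨1 - s ^ (p - 1), ?_, ∅, by simp, ?_⟩
    · refine Submodule.sub_mem _ (one_mem _) (LD_mono ?_ (pow_mem' hsm (p - 1)))
      exact Nat.le_mul_of_pos_left _ hℓ
    · intro y _ _ τ hτ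
      simp only [Kind.eval]
      have h1 : s y = algebraMap (ZMod p) K (((List.ofFn τ).count true : ℕ) : ZMod p) := by
        have h2 := count_ofFn τ
        rw [map_natCast, h2, hs, Finset.sum_apply]
        push_cast
        refine Finset.sum_congr rfl fun i _ => ?_
        rw [hτ i]
        cases τ i <;> simp
      rw [Pi.sub_apply, Pi.pow_apply, h1]
      by_cases hd : p ∣ (List.ofFn τ).count true
      · have h3 : (((List.ofFn τ).count true : ℕ) : ZMod p) = 0 :=
          (ZMod.natCast_eq_zero_iff _ _).2 hd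
        rw [h3, map_zero, zero_pow (by omega)]
        simp [hd]
      · have h3 : (((List.ofFn τ).count true : ℕ) : ZMod p) ≠ 0 := fun h =>
          hd ((ZMod.natCast_eq_zero_iff _ _).1 h)
        rw [algebraMap_pow _ h3]
        simp [hd]
  | wild φ => exact absurd trivial hκ

end H746R3.Inv
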