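import Pool.Agent.H746R3.Inv.Main

/-!
# The asymptotic statement
-/

namespace H746R3.Inv

open Finset Filter

theorem wild_numeric (n k W : ℕ) (t : ℝ) (ht : t + 10 ≤ Real.sqrt n / 10 ^ 6)
    (hk : Real.sqrt n / 2 - 1 ≤ k) (hW : (W : ℝ) ≤ Real.sqrt n / 20000) :
    (2 : ℝ) ^ W * (2 * Real.exp (-((k : ℝ) / 12800))) ≤ 2⁻¹ * (2 : ℝ) ^ (-t) := by
  have h1 : (2 : ℝ) ^ W = Real.exp (W * Real.log 2) := by
    rw [mul_comm, Real.exp_mul, Real.exp_log (by norm_num), Real.rpow_natCast]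
  have h2 : (2 : ℝ) ^ (-t) = Real.exp (-t * Real.log 2) := by
    rw [mul_comm, Real.exp_mul, Real.exp_log (by norm_num)]
  have h3 : (4 : ℝ) = Real.exp (2 * Real.log 2) := by
    rw [mul_comm, Real.exp_mul, Real.exp_log (by norm_num)]; norm_num
  have hl1 := Real.log_two_lt_d9
  have hl2 := Real.log_two_gt_d9
  have hs : 0 ≤ Real.sqrt n := Real.sqrt_nonneg _
  have h4 : (4 : ℝ) * (2 ^ W * Real.exp (-((k : ℝ) / 12800))) ≤ (2 : ℝ) ^ (-t) := by
    rw [h1, h2, h3, ← Real.exp_add, ← Real.exp_add]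
    refine Real.exp_le_exp.2 ?_
    have e1 : (W : ℝ) * Real.log 2 ≤ Real.sqrt n / 20000 * 0.6931471808 := by
      have := Real.log_pos (show (1 : ℝ) < 2 by norm_num)
      calc (W : ℝ) * Real.log 2 ≤ Real.sqrt n / 20000 * Real.log 2 := by gcongr
        _ ≤ _ := by
          have : 0 ≤ Real.sqrt n / 20000 := by positivity
          gcongr
    by_cases ht0 : 0 ≤ t
    · have e2 : t * Real.log 2 ≤ t := by nlinarith
      nlinarith
    · push Not at ht0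
      have e2 : t * Real.log 2 ≤ 0 := by nlinarith
      nlinarith
  linarith

theorem nat_sqrt_lower (n : ℕ) : Real.sqrt n / 2 - 1 ≤ (Nat.sqrt (n / 4) : ℝ) := by
  have h1 : n / 4 < (Nat.sqrt (n / 4) + 1) * (Nat.sqrt (n / 4) + 1) := Nat.lt_succ_sqrt _
  have h2 : n ≤ 4 * ((Nat.sqrt (n / 4) + 1) * (Nat.sqrt (n / 4) + 1)) := by omega
  have h3 : (n : ℝ) ≤ (2 * ((Nat.sqrt (n / 4) : ℝ) + 1)) ^ 2 := by
    have : (n : ℝ) ≤ 4 * (((Nat.sqrt (n / 4) : ℝ) + 1) * ((Nat.sqrt (n / 4) : ℝ) + 1)) := by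
      exact_mod_cast h2
    nlinarith
  have h4 : Real.sqrt n ≤ 2 * ((Nat.sqrt (n / 4) : ℝ) + 1) := by
    rw [Real.sqrt_le_left (by positivity)]
    exact h3
  linarith

open Classical in
theorem asym (p : ℕ) [Fact p.Prime] (h : ℕ) (hh : 1 ≤ h) (δ : ℝ) (hδ : 0 < δ)
    (hhδ : 4 * h * δ < 1) :
    ∃ N : ℕ, ∀ n ≥ N, ∀ R : ℕ, ∀ C : Circuit (Fin n ⊕ Fin R) (Fin n), C.DepthLE h →
      (C.tameGates : ℝ) ≤ 2 ^ ((n : ℝ) ^ δ) → (C.wildGates : ℝ) ≤ Real.sqrt n / 20000 →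
      ((univ.filter fun q : (Fin n → Bool) × (Fin R → Bool) =>
        ∃ z, C.Computes p (Sum.elim (chain q.1) q.2) z ∧ chain z = chain q.1).card : ℝ) ≤
        2 ^ ((n : ℝ) + R - (n : ℝ) ^ δ) := by
  have hpos : (0 : ℝ) < 1 - 4 * h * δ := by linarith
  have hδ4 : δ < 1 / 2 := by
    have : (1 : ℝ) ≤ h := by exact_mod_cast hh
    nlinarith
  have hcast : Tendsto (fun n : ℕ => (n : ℝ)) atTop atTop := tendsto_natCast_atTop_atTop
  have hp2 : 2 ≤ p := (Fact.out : p.Prime).two_le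
  -- four facts for large n
  have F1 : ∀ᶠ n : ℕ in atTop, 4 * 801 ^ 2 * (5 * p : ℝ) ^ (4 * h) * (n : ℝ) ^ (4 * h * δ) ≤ n := by
    have h1 := (tendsto_rpow_atTop hpos).comp hcast
    filter_upwards [h1.eventually_ge_atTop (4 * 801 ^ 2 * (5 * p : ℝ) ^ (4 * h)),
      eventually_ge_atTop 1] with n hn hn1
    have hn0 : (0 : ℝ) < n := by exact_mod_cast hn1
    calc 4 * 801 ^ 2 * (5 * p : ℝ) ^ (4 * h) * (n : ℝ) ^ (4 * h * δ)
        ≤ (n : ℝ) ^ (1 - 4 * h * δ) * (n : ℝ) ^ (4 * h * δ) := by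
          gcongr
          exact hn
      _ = n := by
        rw [← Real.rpow_add hn0]
        simp
  have F2 : ∀ᶠ n : ℕ in atTop, (n : ℝ) ≤ 2 ^ ((n : ℝ) ^ δ) := by
    have h1 := (isLittleO_log_rpow_atTop hδ).def (c := Real.log 2)
      (Real.log_pos (by norm_num))
    filter_upwards [hcast.eventually h1, eventually_ge_atTop 1] with n hn hn1
    have hn0 : (0 : ℝ) < n := by exact_mod_cast hn1
    have hn1' : (1 : ℝ) ≤ n := by exact_mod_cast hn1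
    rw [Real.norm_of_nonneg (Real.log_nonneg hn1'),
      Real.norm_of_nonneg (Real.rpow_nonneg hn0.le _)] at hn
    calc (n : ℝ) = Real.exp (Real.log n) := (Real.exp_log hn0).symm
      _ ≤ Real.exp (Real.log 2 * (n : ℝ) ^ δ) := Real.exp_le_exp.2 hn
      _ = _ := by rw [Real.exp_mul, Real.exp_log (by norm_num)]
  have F3 : ∀ᶠ n : ℕ in atTop, (n : ℝ) ^ δ + 10 ≤ Real.sqrt n / 10 ^ 6 := by
    have h1 := (tendsto_rpow_atTop (show (0 : ℝ) < 1 / 2 - δ by linarith)).comp hcast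
    filter_upwards [h1.eventually_ge_atTop (11 * 10 ^ 6), eventually_ge_atTop 1] with n hn hn1
    have hn0 : (0 : ℝ) < n := by exact_mod_cast hn1
    have hn1' : (1 : ℝ) ≤ n := by exact_mod_cast hn1
    have e1 : (1 : ℝ) ≤ (n : ℝ) ^ δ := Real.one_le_rpow hn1' hδ.le
    have e2 : Real.sqrt n = (n : ℝ) ^ (1 / 2 - δ) * (n : ℝ) ^ δ := by
      rw [← Real.rpow_add hn0, Real.sqrt_eq_rpow]; simp
    rw [e2, le_div_iff₀ (by norm_num)]
    simp only [Function.comp] at hn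
    nlinarith
  obtain ⟨N, hN⟩ := (F1.and (F2.and (F3.and (eventually_ge_atTop 1)))).exists_forall_of_atTop
  refine ⟨N, fun n hn R C hC htame hwild => ?_⟩
  obtain ⟨f1, f2, f3, hn1⟩ := hN n hn
  have hn0 : (0 : ℝ) < n := by exact_mod_cast hn1
  have hn1' : (1 : ℝ) ≤ n := by exact_mod_cast hn1
  set t : ℝ := (n : ℝ) ^ δ with ht
  have ht1 : (1 : ℝ) ≤ t := Real.one_le_rpow hn1' hδ.le
  set ℓ : ℕ := ⌈2 * t⌉₊ + 2 with hℓ
  have hℓ1 : 2 * t + 2 ≤ (ℓ : ℝ) := by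
    rw [hℓ]; push_cast
    linarith [Nat.le_ceil (2 * t)]
  have hℓ2 : (ℓ : ℝ) ≤ 5 * t := by
    rw [hℓ]; push_cast
    have := Nat.ceil_lt_add_one (show 0 ≤ 2 * t by linarith)
    linarith
  set D : ℕ := (ℓ * (p - 1)) ^ h with hD
  have hD1 : 1 ≤ D := Nat.one_le_pow _ _ (Nat.mul_pos (by omega) (by omega))
  have hD2 : (D : ℝ) ^ 4 ≤ (5 * p : ℝ) ^ (4 * h) * (n : ℝ) ^ (4 * h * δ) := by
    have e1 : ((ℓ * (p - 1) : ℕ) : ℝ) ≤ (5 * p) * t := by
      push_cast [Nat.cast_sub (show 1 ≤ p by omega)]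
      have e3 : (0 : ℝ) ≤ p := by positivity
      calc (ℓ : ℝ) * ((p : ℝ) - 1) ≤ (5 * t) * ((p : ℝ) - 1) := by
            have : (0 : ℝ) ≤ (p : ℝ) - 1 := by
              have : (2 : ℝ) ≤ p := by exact_mod_cast hp2
              linarith
            gcongr
        _ ≤ _ := by nlinarith
    have e2 : (D : ℝ) ≤ ((5 * p) * t) ^ h := by
      rw [hD]
      push_cast
      rw [← Nat.cast_mul] at *
      exact pow_le_pow_left₀ (by positivity) e1 h
    calc (D : ℝ) ^ 4 ≤ (((5 * p) * t) ^ h) ^ 4 := pow_le_pow_left₀ (by positivity) e2 4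
      _ = (5 * p : ℝ) ^ (4 * h) * t ^ (4 * h) := by
        rw [← pow_mul, mul_comm h 4, mul_pow]
      _ = _ := by
        rw [ht, ← Real.rpow_natCast ((n : ℝ) ^ δ), ← Real.rpow_mul hn0.le]
        congr 2
        push_cast; ring
  set k : ℕ := Nat.sqrt (n / 4) with hk
  set d : ℕ := Nat.sqrt ((k - 1) / 800) with hd
  have hDd : D ≤ d := by
    have e1 : 4 * (801 * D ^ 2) ^ 2 ≤ n := by
      have : (4 : ℝ) * (801 * (D : ℝ) ^ 2) ^ 2 ≤ n := by
        calc (4 : ℝ) * (801 * (D : ℝ) ^ 2) ^ 2 = 4 * 801 ^ 2 * (D : ℝ) ^ 4 := by ring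
          _ ≤ 4 * 801 ^ 2 * ((5 * p : ℝ) ^ (4 * h) * (n : ℝ) ^ (4 * h * δ)) := by gcongr
          _ = 4 * 801 ^ 2 * (5 * p : ℝ) ^ (4 * h) * (n : ℝ) ^ (4 * h * δ) := by ring
          _ ≤ n := f1
      exact_mod_cast this
    have e2 : 801 * D ^ 2 ≤ k := by
      rw [hk, Nat.le_sqrt']
      omega
    have e3 : 1 ≤ D ^ 2 := Nat.one_le_pow _ _ hD1
    rw [hd, Nat.le_sqrt', Nat.le_div_iff_mul_le (by norm_num)]
    omega
  have hd1 : 1 ≤ d := hD1.trans hDd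
  have hdk : 800 * d ^ 2 < k := by
    have e1 : d ^ 2 ≤ (k - 1) / 800 := Nat.sqrt_le' _
    have e2 : d ^ 2 * 800 ≤ k - 1 := (Nat.le_div_iff_mul_le (by norm_num)).1 e1
    have e3 : 1 ≤ d ^ 2 := Nat.one_le_pow _ _ hd1
    omega
  have hb := main_bound p C h ℓ k (400 * d ^ 2) d hC (by omega) hk
    (by have : 1 ≤ d ^ 2 := Nat.one_le_pow _ _ hd1
        omega) (by omega) hd1 le_rfl (by omega) hDd
  refine hb.trans ?_
  have hG : (C.G : ℝ) ≤ 2 * 2 ^ t := by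
    have e1 : C.G = C.wildGates + C.tameGates := by
      unfold Circuit.wildGates Circuit.tameGates
      rw [Finset.card_filter_add_card_filter_not, Finset.card_univ, Fintype.card_fin]
    have e2 : Real.sqrt n / 20000 ≤ n := by
      have e3 : Real.sqrt n ≤ n := by
        rw [Real.sqrt_le_left hn0.le]
        nlinarith
      have := Real.sqrt_nonneg (n : ℝ)
      linarith
    rw [e1]
    push_cast
    linarith
  have hGp : (C.G : ℝ) / p ^ ℓ ≤ 2⁻¹ * 2 ^ (-t) := by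
    have e1 : (2 : ℝ) ^ (2 * t + 2) ≤ (p : ℝ) ^ ℓ := by
      calc (2 : ℝ) ^ (2 * t + 2) ≤ 2 ^ (ℓ : ℝ) :=
            Real.rpow_le_rpow_of_exponent_le (by norm_num) hℓ1
        _ = (2 : ℝ) ^ ℓ := Real.rpow_natCast _ _
        _ ≤ (p : ℝ) ^ ℓ := by
          have : (2 : ℝ) ≤ p := by exact_mod_cast hp2
          gcongr
    have e2 : (0 : ℝ) < 2 ^ (2 * t + 2) := Real.rpow_pos_of_pos (by norm_num) _
    calc (C.G : ℝ) / p ^ ℓ ≤ (2 * 2 ^ t) / 2 ^ (2 * t + 2) := by gcongr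
      _ = _ := by
        rw [show (2 : ℝ) * t + 2 = t + t + 2 by ring, Real.rpow_add (by norm_num),
          Real.rpow_add (by norm_num), Real.rpow_neg (by norm_num)]
        have : (2 : ℝ) ^ t ≠ 0 := (Real.rpow_pos_of_pos (by norm_num) _).ne'
        norm_num
        field_simp
        norm_num
  have hWd := wild_numeric n k C.wildGates t f3 (nat_sqrt_lower n) hwild
  have hfin : (2 : ℝ) ^ ((n : ℝ) + R - t) = 2 ^ R * (2 ^ n * 2 ^ (-t)) := by
    rw [show (n : ℝ) + R - t = R + (n + -t) by ring, Real.rpow_add (by norm_num),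
      Real.rpow_add (by norm_num), Real.rpow_natCast, Real.rpow_natCast]
  rw [hfin]
  have e5 : (2 : ℝ) ^ (-t) = 2⁻¹ * 2 ^ (-t) + 2⁻¹ * 2 ^ (-t) := by ring
  rw [e5]
  gcongr

end H746R3.Inv
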