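import Pool.Agent.H746R3.Inv.Slice

/-!
# The chain function
-/

namespace H746R3.Inv

open Finset

/-- bit number `i` of the string `x` (`false` if there is none) -/
def bt {n : ℕ} (x : Fin n → Bool) (i : ℕ) : Bool := if h : i < n then x ⟨i, h⟩ else false

theorem bt_of_lt {n : ℕ} (x : Fin n → Bool) {i : ℕ} (h : i < n) : bt x i = x ⟨i, h⟩ := dif_pos h

/-- The bit of type `t` of the cell before cell `q`; `false` at the beginning of a block (the
blocks have `⌊√⌊n/4⌋⌋` cells each). -/
def pv {n : ℕ} (x : Fin n → Bool) (q t : ℕ) : Bool :=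
  if q % Nat.sqrt (n / 4) = 0 then false else bt x (4 * (q - 1) + t)

/-- The chain function. The bits `4q, 4q+1, 4q+2, 4q+3` form cell number `q`; the output bits of
the cell are the sums modulo 2 of its input bits and of a function of the cell before. -/
def chain {n : ℕ} (x : Fin n → Bool) (i : Fin n) : Bool :=
  if i.1 % 4 = 0 then xor (x i) (pv x (i / 4) 0)
  else if i.1 % 4 = 1 then x i
  else if i.1 % 4 = 2 then
    xor (x i) (if bt x (4 * (i / 4) + 1) then pv x (i / 4) 3 else pv x (i / 4) 2)
  else
    xor (x i) (if bt x (4 * (i / 4) + 1) then xor (pv x (i / 4) 2) (pv x (i / 4) 3)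
      else pv x (i / 4) 3)

theorem pv_congr {n : ℕ} {x x' : Fin n → Bool} {i : ℕ}
    (h : ∀ j : Fin n, j.1 < i → x j = x' j) {q t : ℕ} (hq : 4 * q ≤ i) (ht : t < 4) :
    pv x q t = pv x' q t := by
  unfold pv
  split_ifs with h0
  · rfl
  · have hq0 : q ≠ 0 := by
      rintro rfl
      exact h0 (Nat.zero_mod _)
    unfold bt
    split_ifs with h1
    · exact h ⟨_, h1⟩ (by simp only; omega)
    · rfl

theorem bt_congr {n : ℕ} {x x' : Fin n → Bool} {i : ℕ}
    (h : ∀ j : Fin n, j.1 < i → x j = x' j) {k : ℕ} (hk : k < i) : bt x k = bt x' k := by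
  unfold bt
  split_ifs with h1
  · exact h ⟨_, h1⟩ hk
  · rfl

theorem chain_injective {n : ℕ} : Function.Injective (chain : (Fin n → Bool) → Fin n → Bool) := by
  intro x x' hxx
  have key : ∀ i : ℕ, ∀ j : Fin n, j.1 < i → x j = x' j := by
    intro i
    induction i with
    | zero => intro j hj; omega
    | succ i ih =>
      intro j hj
      rcases Nat.lt_or_ge j.1 i with hlt | hge
      · exact ih j hlt
      · have hji : j.1 = i := by omega
        have h1 := congrFun hxx j
        unfold chain at h1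
        have hq : 4 * (j.1 / 4) ≤ i := by omega
        rw [pv_congr ih hq (by norm_num : 0 < 4), pv_congr ih hq (by norm_num : 2 < 4),
          pv_congr ih hq (by norm_num : 3 < 4)] at h1
        by_cases c0 : j.1 % 4 = 0
        · simp only [c0, if_true] at h1
          simpa [Bool.xor_comm] using h1
        · by_cases c1 : j.1 % 4 = 1
          · simpa [c1] using h1
          · have hb : bt x (4 * (j.1 / 4) + 1) = bt x' (4 * (j.1 / 4) + 1) :=
              bt_congr ih (by omega)
            rw [hb] at h1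
            by_cases c2 : j.1 % 4 = 2
            · simp only [c2] at h1
              simpa [Bool.xor_comm] using h1
            · simp only [c0, c1, c2, if_false] at h1
              simpa [Bool.xor_comm] using h1
  funext j
  exact key (j.1 + 1) j (Nat.lt_succ_self _)

theorem chain_bijective {n : ℕ} : Function.Bijective (chain : (Fin n → Bool) → Fin n → Bool) :=
  Finite.injective_iff_bijective.1 chain_injective

/-- every output bit depends on at most four input bits -/
theorem chain_local {n : ℕ} (i : Fin n) : ∃ T : Finset (Fin n), T.card ≤ 4 ∧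
    ∀ x x' : Fin n → Bool, (∀ j ∈ T, x j = x' j) → chain x i = chain x' i := by
  classical
  set N : Finset ℕ := if i.1 % 4 = 0 then ({i.1, 4 * (i.1 / 4 - 1)} : Finset ℕ)
    else ({i.1, 4 * (i.1 / 4) + 1, 4 * (i.1 / 4 - 1) + 2, 4 * (i.1 / 4 - 1) + 3} : Finset ℕ)
    with hN
  have hNc : N.card ≤ 4 := by
    simp only [hN]
    split_ifs
    · exact (Finset.card_insert_le _ _).trans (by rw [Finset.card_singleton]; omega)
    · exact Finset.card_le_four
  refine ⟨univ.filter (fun j : Fin n => j.1 ∈ N), ?_, ?_⟩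
  · refine le_trans ?_ hNc
    refine Finset.card_le_card_of_injOn (fun j => j.1) ?_ ?_
    · intro j hj
      simpa using hj
    · intro a _ b _ hab
      exact Fin.ext hab
  · intro x x' h
    have hx : ∀ k, k ∈ N → bt x k = bt x' k := by
      intro k hk
      unfold bt
      split_ifs with h1
      · exact h ⟨k, h1⟩ (by simpa using hk)
      · rfl
    have hpv : ∀ t, 4 * (i.1 / 4 - 1) + t ∈ N → pv x (i / 4) t = pv x' (i / 4) t := by
      intro t ht
      unfold pv
      split_ifs
      · rfl
      · exact hx _ ht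
    have hi : x i = x' i := by
      have := hx i.1 (by simp only [hN]; split_ifs <;> simp)
      rwa [bt_of_lt x i.2, bt_of_lt x' i.2] at this
    unfold chain
    rw [hi]
    by_cases c0 : i.1 % 4 = 0
    · simp only [c0, if_true]
      rw [hpv 0 (by simp [hN, c0])]
    · have e1 : bt x (4 * (i.1 / 4) + 1) = bt x' (4 * (i.1 / 4) + 1) :=
        hx _ (by simp [hN, c0])
      rw [hpv 2 (by simp [hN, c0]), hpv 3 (by simp [hN, c0]), e1]
      simp only [c0, if_false]

section field

variable {K : Type*} [Field K] {n : ℕ}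

/-- the parity chain -/
theorem chain_parity (x : Fin n → Bool) (k : ℕ) (hk : k = Nat.sqrt (n / 4)) (j i : ℕ)
    (hi : i < k) (hj : 4 * (j * k + i) + 4 ≤ n) :
    zz (-1 : K) (bt x (4 * (j * k + i))) =
      ∏ t ∈ range (i + 1), zz (-1 : K) (bt (chain x) (4 * (j * k + t))) := by
  have hxor : ∀ a b : Bool, zz (-1 : K) (xor a b) = zz (-1 : K) a * zz (-1 : K) b := by
    intro a b
    cases a <;> cases b <;> simp [zz]
  have hy : ∀ q, 4 * q < n → bt (chain x) (4 * q) = xor (bt x (4 * q)) (pv x q 0) := by
    intro q hq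
    rw [bt_of_lt _ hq, bt_of_lt _ hq]
    unfold chain
    have e1 : (4 * q) % 4 = 0 := by omega
    have e2 : (4 * q) / 4 = q := by omega
    simp only [e1, if_true, e2]
  induction i with
  | zero =>
    rw [Finset.prod_range_one, hy _ (by omega)]
    have : pv x (j * k + 0) 0 = false := by
      unfold pv
      rw [if_pos]
      rw [← hk, add_zero, Nat.mul_mod_left]
    rw [this, Bool.xor_false]
  | succ i ih =>
    rw [Finset.prod_range_succ, ← ih (by omega) (by omega), hy _ (by omega)]
    have : pv x (j * k + (i + 1)) 0 = bt x (4 * (j * k + i)) := by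
      unfold pv
      rw [if_neg]
      · congr 1
      · rw [← hk, Nat.add_comm, Nat.add_mul_mod_self_right, Nat.mod_eq_of_lt hi]
        exact Nat.succ_ne_zero i
    rw [this, hxor, mul_comm (zz (-1 : K) (bt x (4 * (j * k + (i + 1))))), ← mul_assoc, ← hxor,
      Bool.xor_self]
    simp [zz]

/-- the value of two bits -/
def e4 (ω : K) (u v : Bool) : K := bK u + ω * bK v

/-- the chain with multiplications by a cube root of unity, in characteristic 2 -/
theorem chain_rec [CharP K 2] (ω : K) (hω : ω ^ 2 + ω + 1 = 0) (x : Fin n → Bool) (q : ℕ)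
    (hq : 4 * q + 4 ≤ n) :
    e4 ω (bt x (4 * q + 2)) (bt x (4 * q + 3)) =
      e4 ω (bt (chain x) (4 * q + 2)) (bt (chain x) (4 * q + 3)) +
        zz ω (bt (chain x) (4 * q + 1)) * e4 ω (pv x q 2) (pv x q 3) := by
  have h2 : bt (chain x) (4 * q + 2) = xor (bt x (4 * q + 2))
      (if bt x (4 * q + 1) then pv x q 3 else pv x q 2) := by
    rw [bt_of_lt (chain x) (by omega), bt_of_lt x (i := 4 * q + 2) (by omega)]
    unfold chain
    have e1 : (4 * q + 2) % 4 = 2 := by omega
    have e2 : (4 * q + 2) / 4 = q := by omega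
    simp only [e1, e2]
    norm_num
  have h3 : bt (chain x) (4 * q + 3) = xor (bt x (4 * q + 3))
      (if bt x (4 * q + 1) then xor (pv x q 2) (pv x q 3) else pv x q 3) := by
    rw [bt_of_lt (chain x) (by omega), bt_of_lt x (i := 4 * q + 3) (by omega)]
    unfold chain
    have e1 : (4 * q + 3) % 4 = 3 := by omega
    have e2 : (4 * q + 3) / 4 = q := by omega
    simp only [e1, e2]
    norm_num
  have h1 : bt (chain x) (4 * q + 1) = bt x (4 * q + 1) := by
    rw [bt_of_lt (chain x) (by omega), bt_of_lt x (by omega)]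
    unfold chain
    have e1 : (4 * q + 1) % 4 = 1 := by omega
    simp only [e1]
    norm_num
  have hxor : ∀ a b : Bool, (bK (xor a b) : K) = bK a + bK b := by
    intro a b
    cases a <;> cases b <;> simp [CharTwo.add_self_eq_zero]
  rw [h1, h2, h3]
  have hω' : ω * ω = ω + 1 := by
    have : ω * ω + (ω + 1) = 0 := by linear_combination hω
    have h4 := CharTwo.add_self_eq_zero (ω + 1)
    calc ω * ω = ω * ω + (ω + 1) + (ω + 1) := by rw [add_assoc, h4, add_zero]
      _ = _ := by rw [this, zero_add]
  unfold e4 zz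
  cases bt x (4 * q + 1)
  · simp only [Bool.false_eq_true, if_false, hxor, one_mul]
    have h5 := CharTwo.add_self_eq_zero (bK (pv x q 2) : K)
    have h6 := CharTwo.add_self_eq_zero (bK (pv x q 3) : K)
    linear_combination -h5 - ω * h6
  · simp only [if_true, hxor]
    have h5 := CharTwo.add_self_eq_zero (bK (pv x q 2) : K)
    have h6 := CharTwo.add_self_eq_zero (bK (pv x q 3) : K)
    linear_combination -ω * h5 - (1 + ω) * h6 - (bK (pv x q 3)) * hω'

/-- two outputs which agree on the cells of a block except for the last two bits of the first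
cell -/
theorem chain_diff [CharP K 2] (ω : K) (hω : ω ^ 2 + ω + 1 = 0) (x x' : Fin n → Bool) (k : ℕ)
    (hk : k = Nat.sqrt (n / 4)) (j i : ℕ) (hi : i < k) (hj : 4 * (j * k + i) + 4 ≤ n)
    (hz : ∀ t, 1 ≤ t → t ≤ i →
      bt (chain x) (4 * (j * k + t) + 1) = bt (chain x') (4 * (j * k + t) + 1))
    (hy2 : ∀ t, 1 ≤ t → t ≤ i →
      bt (chain x) (4 * (j * k + t) + 2) = bt (chain x') (4 * (j * k + t) + 2))
    (hy3 : ∀ t, 1 ≤ t → t ≤ i →
      bt (chain x) (4 * (j * k + t) + 3) = bt (chain x') (4 * (j * k + t) + 3)) :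
    e4 ω (bt x (4 * (j * k + i) + 2)) (bt x (4 * (j * k + i) + 3)) -
        e4 ω (bt x' (4 * (j * k + i) + 2)) (bt x' (4 * (j * k + i) + 3)) =
      (∏ t ∈ range i, zz ω (bt (chain x) (4 * (j * k + (t + 1)) + 1))) *
        (e4 ω (bt (chain x) (4 * (j * k) + 2)) (bt (chain x) (4 * (j * k) + 3)) -
          e4 ω (bt (chain x') (4 * (j * k) + 2)) (bt (chain x') (4 * (j * k) + 3))) := by
  have hpv0 : ∀ (x : Fin n → Bool) (t : ℕ), pv x (j * k + 0) t = false := by
    intro x t
    unfold pv
    rw [if_pos]
    rw [← hk, add_zero, Nat.mul_mod_left]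
  have hpvs : ∀ (x : Fin n → Bool) (i t : ℕ), i + 1 < k →
      pv x (j * k + (i + 1)) t = bt x (4 * (j * k + i) + t) := by
    intro x i t hi
    unfold pv
    rw [if_neg]
    · congr 1
    · rw [← hk, Nat.add_comm, Nat.add_mul_mod_self_right, Nat.mod_eq_of_lt hi]
      omega
  induction i with
  | zero =>
    rw [chain_rec ω hω x _ (by omega), chain_rec ω hω x' _ (by omega), hpv0, hpv0, hpv0, hpv0]
    simp [e4]
  | succ i ih =>
    have h1 := ih (by omega) (by omega) (fun t h1 h2 => hz t h1 (by omega))
      (fun t h1 h2 => hy2 t h1 (by omega)) (fun t h1 h2 => hy3 t h1 (by omega))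
    rw [chain_rec ω hω x (j * k + (i + 1)) (by omega), chain_rec ω hω x' (j * k + (i + 1)) (by omega),
      hpvs x i 2 hi, hpvs x i 3 hi, hpvs x' i 2 hi, hpvs x' i 3 hi,
      ← hz (i + 1) (by omega) le_rfl, ← hy2 (i + 1) (by omega) le_rfl,
      ← hy3 (i + 1) (by omega) le_rfl, Finset.prod_range_succ, mul_right_comm, ← h1]
    ring

end field

end H746R3.Inv
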