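import Pool.Agent.H746R3.Inv.Deg

/-!
# Circuits with AND, OR, MOD-p gates and arbitrary gates
-/

namespace H746R3.Inv

/-- The kinds of gates: AND, OR, MOD-p (is the number of true arguments divisible by `p`?), and
arbitrary Boolean functions `φ` of any number of arguments. -/
inductive Kind : Type
  | and : Kind
  | or : Kind
  | mod : Kind
  | wild (φ : List Bool → Bool) : Kind

/-- The value of a gate as a function of the list of its arguments. -/
def Kind.eval (p : ℕ) : Kind → List Bool → Bool
  | .and, l => l.all id
  | .or, l => l.any id
  | .mod, l => decide (p ∣ l.count true)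
  | .wild φ, l => φ l

/-- A circuit whose inputs are numbered by `I` and whose outputs are numbered by `O`. It has
gates `0, …, G - 1`, of unbounded fan-in. A wire `(b, s)` carries the value of the input or gate
`s`, negated if `b` is true. All wires into a gate come from inputs and from gates of lower
level. -/
structure Circuit (I O : Type) : Type where
  /-- the number of gates -/
  G : ℕ
  /-- the kind of a gate -/
  kind : Fin G → Kind
  /-- the wires into a gate -/
  wires : Fin G → List (Bool × (I ⊕ Fin G))
  /-- the level of a gate -/
  level : Fin G → ℕ
  /-- wires go from lower to higher levels -/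
  level_lt : ∀ (g : Fin G) (b : Bool) (g' : Fin G), (b, Sum.inr g') ∈ wires g → level g' < level g
  /-- the outputs -/
  out : O → Bool × (I ⊕ Fin G)

variable {I O : Type}

/-- the value carried by a wire, given the values `x` of the inputs and `v` of the gates -/
def Circuit.wire (C : Circuit I O) (x : I → Bool) (v : Fin C.G → Bool)
    (w : Bool × (I ⊕ Fin C.G)) : Bool := xor w.1 (Sum.elim x v w.2)

/-- `v` gives the values of all gates on input `x`. (There is exactly one such `v`, since wires go
from lower to higher levels.) -/
def Circuit.IsRun (p : ℕ) (C : Circuit I O) (x : I → Bool) (v : Fin C.G → Bool) : Prop :=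
  ∀ g, v g = (C.kind g).eval p ((C.wires g).map (C.wire x v))

/-- On input `x` the outputs of the circuit are `y`. -/
def Circuit.Computes (p : ℕ) (C : Circuit I O) (x : I → Bool) (y : O → Bool) : Prop :=
  ∃ v : Fin C.G → Bool, C.IsRun p x v ∧ ∀ j, y j = C.wire x v (C.out j)

/-- the arbitrary gates -/
def Kind.IsWild : Kind → Prop
  | .wild _ => True
  | _ => False

instance : DecidablePred Kind.IsWild := fun k => by cases k <;> (unfold Kind.IsWild; infer_instance)

/-- the number of arbitrary gates -/
def Circuit.wildGates (C : Circuit I O) : ℕ := (Finset.univ.filter fun g => (C.kind g).IsWild).card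

/-- the number of AND, OR and MOD-p gates -/
def Circuit.tameGates (C : Circuit I O) : ℕ :=
  (Finset.univ.filter fun g => ¬ (C.kind g).IsWild).card

/-- The circuit has depth at most `h`: the levels of its gates are less than `h`. -/
def Circuit.DepthLE (C : Circuit I O) (h : ℕ) : Prop := ∀ g, C.level g < h

/-- every input has a run; it is unique -/
theorem Circuit.existsUnique_run (p : ℕ) (C : Circuit I O) (x : I → Bool) :
    ∃! v, C.IsRun p x v := by
  have key : ∀ L : ℕ, ∃ v : Fin C.G → Bool, ∀ g, C.level g < L →
      v g = (C.kind g).eval p ((C.wires g).map (C.wire x v)) := by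
    intro L
    induction L with
    | zero => exact ⟨fun _ => false, fun g hg => absurd hg (Nat.not_lt_zero _)⟩
    | succ L ih =>
      obtain ⟨v, hv⟩ := ih
      refine ⟨fun g => if C.level g < L then v g else
        (C.kind g).eval p ((C.wires g).map (C.wire x v)), ?_⟩
      intro g hg
      have hmap : (C.wires g).map (C.wire x (fun g => if C.level g < L then v g else
          (C.kind g).eval p ((C.wires g).map (C.wire x v)))) = (C.wires g).map (C.wire x v) := by
        refine List.map_congr_left ?_
        rintro ⟨b, s | g'⟩ hw
        · rfl
        · have h1 := C.level_lt g b g' hw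
          simp only [Circuit.wire, Sum.elim_inr]
          rw [if_pos (by omega)]
      rw [hmap]
      by_cases h1 : C.level g < L
      · simp only [if_pos h1]
        exact hv g h1
      · simp only [if_neg h1]
  obtain ⟨v, hv⟩ := key ((Finset.univ.sup C.level) + 1)
  refine ⟨v, fun g => hv g (Nat.lt_succ_of_le (Finset.le_sup (Finset.mem_univ g))), ?_⟩
  intro v' hv'
  have h2 : ∀ L : ℕ, ∀ g, C.level g < L → v' g = v g := by
    intro L
    induction L with
    | zero => intro g hg; exact absurd hg (Nat.not_lt_zero _)
    | succ L ih =>
      intro g hg
      rw [hv' g, hv g (Nat.lt_succ_of_le (Finset.le_sup (Finset.mem_univ g)))]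
      congr 1
      refine List.map_congr_left ?_
      rintro ⟨b, s | g'⟩ hw
      · rfl
      · have h1 := C.level_lt g b g' hw
        simp only [Circuit.wire, Sum.elim_inr]
        rw [ih g' (by omega)]
  funext g
  exact h2 _ g (Nat.lt_succ_self _)

end H746R3.Inv
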