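import Pool.Agent.H746R3.Inv.Deg

/-!
# The dimension count for the direct product theorem
-/

namespace H746R3.Inv

open Finset

variable {K : Type*} [Field K] {J : Type*} [Fintype J] [DecidableEq J]

/-- section of a set of variables in block `j` -/
def sec {r : ℕ} (A : Finset (J × Fin r)) (j : J) : Finset (Fin r) :=
  univ.filter fun t => (j, t) ∈ A

theorem prod_sec {M : Type*} [CommMonoid M] {r : ℕ} (A : Finset (J × Fin r)) (g : J × Fin r → M) :
    ∏ v ∈ A, g v = ∏ j, ∏ t ∈ sec A j, g (j, t) := by
  have h1 : ∏ v ∈ A, g v = ∏ v : J × Fin r, if v ∈ A then g v else 1 := by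
    rw [Finset.prod_ite_mem]; simp
  rw [h1, Fintype.prod_prod_type]
  refine Finset.prod_congr rfl fun j _ => ?_
  unfold sec
  rw [Finset.prod_filter]

theorem dp_count (r d D₀ : ℕ) (ζ : K) (hζ0 : ζ ≠ 0) (hζ1 : ζ ≠ 1)
    (S : Finset (J × Fin (2 * r) → Bool)) (Q : J → (J × Fin (2 * r) → Bool) → K)
    (hQ : ∀ j, Q j ∈ LD K (J × Fin (2 * r)) d)
    (hS : ∀ b ∈ S, ∀ j, Q j b = ∏ t, zz ζ (b (j, t))) :
    S.card ≤ (univ.filter fun B : Finset (J × Fin (2 * r)) => B.card ≤ D₀).card +
      (univ.filter fun A : Finset (J × Fin (2 * r)) =>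
        D₀ < ∑ j, (min (sec A j).card (2 * r - (sec A j).card) + d)).card := by
  classical
  set Res : (((J × Fin (2 * r)) → Bool) → K) →ₗ[K] (S → K) :=
    LinearMap.funLeft K K (fun s : S => (s : (J × Fin (2 * r)) → Bool)) with hRes
  have hResA : ∀ f (s : S), Res f s = f s := fun f s => rfl
  set chi : Finset (J × Fin (2 * r)) → ((J × Fin (2 * r)) → Bool) → K := fun B x => ∏ v ∈ B, zz ζ (x v) with hchi
  set T1 : Finset (S → K) := (univ.filter fun B : Finset (J × Fin (2 * r)) => B.card ≤ D₀).image
    (fun B => Res (mono B)) with hT1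
  set T2 : Finset (S → K) := (univ.filter fun A : Finset (J × Fin (2 * r)) =>
        D₀ < ∑ j, (min (sec A j).card (2 * r - (sec A j).card) + d)).image
    (fun A => Res (chi A)) with hT2
  have hLD : ∀ f ∈ LD K (J × Fin (2 * r)) D₀, Res f ∈ Submodule.span K ((T1 ∪ T2 : Finset (S → K)) : Set (S → K)) := by
    intro f hf
    refine Submodule.span_induction (p := fun f _ => Res f ∈ Submodule.span K
      ((T1 ∪ T2 : Finset (S → K)) : Set (S → K))) ?_ ?_ ?_ ?_ hf
    · rintro f ⟨B, hB, rfl⟩
      refine Submodule.subset_span ?_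
      rw [Finset.mem_coe, Finset.mem_union]
      left
      exact Finset.mem_image.2 ⟨B, by simp [hB], rfl⟩
    · rw [map_zero]; exact Submodule.zero_mem _
    · intro a b _ _ ha hb
      rw [map_add]; exact Submodule.add_mem _ ha hb
    · intro c a _ ha
      rw [map_smul]; exact Submodule.smul_mem _ _ ha
  have hchiA : ∀ A : Finset (J × Fin (2 * r)), Res (chi A) ∈
      Submodule.span K ((T1 ∪ T2 : Finset (S → K)) : Set (S → K)) := by
    intro A
    by_cases hA : D₀ < ∑ j, (min (sec A j).card (2 * r - (sec A j).card) + d)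
    · refine Submodule.subset_span ?_
      rw [Finset.mem_coe, Finset.mem_union]
      right
      exact Finset.mem_image.2 ⟨A, by simp [hA], rfl⟩
    · push Not at hA
      set F : J → ((J × Fin (2 * r)) → Bool) → K := fun j =>
        if r < (sec A j).card then
          Q j * ∏ t ∈ univ \ sec A j, (fun x : (J × Fin (2 * r)) → Bool => (zz ζ (x (j, t)))⁻¹)
        else ∏ t ∈ sec A j, (fun x : (J × Fin (2 * r)) → Bool => zz ζ (x (j, t))) with hF
      have hFm : ∀ j, F j ∈ LD K (J × Fin (2 * r)) (min (sec A j).card (2 * r - (sec A j).card) + d) := by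
        intro j
        simp only [hF]
        split_ifs with hj
        · have h1 : ∏ t ∈ univ \ sec A j, (fun x : (J × Fin (2 * r)) → Bool => (zz ζ (x (j, t)))⁻¹) ∈
              LD K (J × Fin (2 * r)) (∑ t ∈ univ \ sec A j, 1) :=
            prod_mem' _ _ (fun _ => 1) fun t _ => bit_mem (fun b => (zz ζ b)⁻¹) (j, t)
          have h2 := mul_mem (hQ j) h1
          refine LD_mono ?_ h2
          have h3 : (univ \ sec A j).card = 2 * r - (sec A j).card := by
            rw [Finset.card_sdiff_of_subset (Finset.subset_univ _)]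
            simp
          rw [Finset.sum_const, smul_eq_mul, mul_one, h3]
          have h4 : (sec A j).card ≤ 2 * r := by
            simpa using Finset.card_le_univ (sec A j)
          omega
        · have h1 : ∏ t ∈ sec A j, (fun x : (J × Fin (2 * r)) → Bool => zz ζ (x (j, t))) ∈
              LD K (J × Fin (2 * r)) (∑ t ∈ sec A j, 1) :=
            prod_mem' _ _ (fun _ => 1) fun t _ => bit_mem (fun b => zz ζ b) (j, t)
          refine LD_mono ?_ h1
          rw [Finset.sum_const, smul_eq_mul, mul_one]
          omega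
      have hprod : ∏ j, F j ∈ LD K (J × Fin (2 * r)) D₀ :=
        LD_mono hA (prod_mem' univ F _ fun j _ => hFm j)
      have heq : Res (chi A) = Res (∏ j, F j) := by
        funext s
        rw [hResA, hResA]
        simp only [hchi]
        rw [prod_sec A, Finset.prod_apply]
        refine Finset.prod_congr rfl fun j _ => ?_
        simp only [hF]
        split_ifs with hj
        · have hz : ∏ t ∈ univ \ sec A j, (zz ζ ((s : (J × Fin (2 * r)) → Bool) (j, t)) *
              (zz ζ ((s : (J × Fin (2 * r)) → Bool) (j, t)))⁻¹) = 1 := by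
            refine Finset.prod_eq_one fun t _ => mul_inv_cancel₀ ?_
            unfold zz
            split_ifs
            · exact hζ0
            · exact one_ne_zero
          rw [Finset.prod_mul_distrib] at hz
          rw [Pi.mul_apply, hS s s.2 j, Finset.prod_apply,
            ← Finset.prod_sdiff (Finset.subset_univ (sec A j)),
            mul_comm (∏ t ∈ univ \ sec A j, zz ζ ((s : (J × Fin (2 * r)) → Bool) (j, t))),
            mul_assoc, hz, mul_one]
        · rw [Finset.prod_apply]
      rw [heq]
      exact hLD _ hprod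
  have htop : (⊤ : Submodule K (S → K)) ≤
      Submodule.span K ((T1 ∪ T2 : Finset (S → K)) : Set (S → K)) := by
    intro g _
    set g' : ((J × Fin (2 * r)) → Bool) → K := fun x => if h : x ∈ S then g ⟨x, h⟩ else 0 with hg'
    have h1 : Res g' = g := by
      funext s
      rw [hResA]
      simp [hg']
    rw [← h1]
    have h2 := mem_span_chi ζ hζ1 g'
    refine Submodule.span_induction (p := fun f _ => Res f ∈ Submodule.span K
      ((T1 ∪ T2 : Finset (S → K)) : Set (S → K))) ?_ ?_ ?_ ?_ h2
    · rintro f ⟨B, rfl⟩
      exact hchiA B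
    · rw [map_zero]; exact Submodule.zero_mem _
    · intro a b _ _ ha hb
      rw [map_add]; exact Submodule.add_mem _ ha hb
    · intro c a _ ha
      rw [map_smul]; exact Submodule.smul_mem _ _ ha
  have hfin : Module.finrank K (S → K) = S.card := by
    rw [Module.finrank_fintype_fun_eq_card, Fintype.card_coe]
  calc S.card = Module.finrank K (S → K) := hfin.symm
    _ = Module.finrank K (⊤ : Submodule K (S → K)) := (finrank_top K (S → K)).symm
    _ = Module.finrank K (Submodule.span K ((T1 ∪ T2 : Finset (S → K)) : Set (S → K))) := by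
        rw [top_le_iff.1 htop]
    _ ≤ (T1 ∪ T2).card := finrank_span_finset_le_card _
    _ ≤ T1.card + T2.card := Finset.card_union_le _ _
    _ ≤ _ := Nat.add_le_add Finset.card_image_le Finset.card_image_le

end H746R3.Inv
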