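import Pool.Agent.H746R3.Inv.Chain
import Pool.Agent.H622R2.CoNP

/-!
# The chain function is computable in polynomial time
-/

namespace H746R3.Inv

open Pool.Agent Pool.Agent.NPC Pool.Agent.H622R2

/-- the previous cell, for lists -/
def pvL (x : List Bool) (q t : ℕ) : Bool :=
  if q % Nat.sqrt (x.length / 4) = 0 then false else x.getD (4 * (q - 1) + t) false

/-- the chain function, for lists -/
def chainL (x : List Bool) (i : ℕ) : Bool :=
  if i % 4 = 0 then xor (x.getD i false) (pvL x (i / 4) 0)
  else if i % 4 = 1 then x.getD i false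
  else if i % 4 = 2 then
    xor (x.getD i false) (if x.getD (4 * (i / 4) + 1) false then pvL x (i / 4) 3
      else pvL x (i / 4) 2)
  else
    xor (x.getD i false) (if x.getD (4 * (i / 4) + 1) false then
        xor (pvL x (i / 4) 2) (pvL x (i / 4) 3)
      else pvL x (i / 4) 3)

theorem bt_get (x : List Bool) (i : ℕ) : bt x.get i = x.getD i false := by
  unfold bt
  split_ifs with h
  · simp [List.getD_eq_getElem?_getD, h]
  · simp [List.getD_eq_getElem?_getD, h]

theorem pv_get (x : List Bool) (q t : ℕ) : pv x.get q t = pvL x q t := by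
  unfold pv pvL
  rw [bt_get]

theorem chain_get (x : List Bool) (i : Fin x.length) : chain x.get i = chainL x i.1 := by
  have h : x.get i = x.getD i.1 false := by
    rw [← bt_get, bt_of_lt _ i.2]
  unfold chain chainL
  simp only [pv_get, bt_get, h]

theorem length_filter_lt : ∀ m n : ℕ, m ≤ n →
    ((List.range n).filter (fun k => decide (k < m))).length = m := by
  intro m n hmn
  have : (List.range n).filter (fun k => decide (k < m)) = List.range m := by
    obtain ⟨d, rfl⟩ := Nat.exists_eq_add_of_le hmn
    rw [List.range_add, List.filter_append]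
    have h1 : (List.range m).filter (fun k => decide (k < m)) = List.range m := by
      rw [List.filter_eq_self]
      intro k hk
      simpa using hk
    have h2 : ((List.range d).map (fun x => m + x)).filter (fun k => decide (k < m)) = [] := by
      rw [List.filter_eq_nil_iff]
      intro k hk
      simp only [List.mem_map] at hk
      obtain ⟨a, _, rfl⟩ := hk
      simp
    rw [h1, h2, List.append_nil]
  rw [this, List.length_range]

variable {α : Type} [TEnc α]

theorem UPoly.sqrt {n : α → ℕ} (hn : UPoly n) : UPoly (fun a => Nat.sqrt (n a)) := by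
  have h1 : Poly (fun a => (List.range (n a)).filter
      (fun k => decide ((k + 1) * (k + 1) ≤ n a))) :=
    Poly.filter (p := fun a k => decide ((k + 1) * (k + 1) ≤ n a)) hn.range
      (Poly.decide_le (Poly.mul (Poly.succ (Poly.snd Poly.id)) (Poly.succ (Poly.snd Poly.id)))
        (hn.toPoly.comp (Poly.fst Poly.id)))
  refine (UPoly.length h1).congr fun a => ?_
  congr 1
  show ((List.range (n a)).filter (fun k => decide ((k + 1) * (k + 1) ≤ n a))).length =
    Nat.sqrt (n a)
  conv_rhs => rw [← length_filter_lt (Nat.sqrt (n a)) (n a) (Nat.sqrt_le_self _)]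
  congr 1
  refine List.filter_congr fun k _ => ?_
  rw [decide_eq_decide, Nat.lt_iff_add_one_le, Nat.le_sqrt]

theorem poly_pvL {q : α → ℕ} {x : α → List Bool} (t : ℕ) (hx : Poly x) (hq : Poly q) :
    Poly (fun a => pvL (x a) (q a) t) := by
  have h4 : Poly (fun _ : α => (4 : ℕ)) := NPC.Poly.const 4
  have hlen : UPoly (fun a => (x a).length) := UPoly.length hx
  have hdiv : UPoly (fun a => (x a).length / 4) :=
    UPoly.of_le (Poly.div hlen.toPoly h4) hlen (fun a => Nat.div_le_self _ _)
  have hs : Poly (fun a => Nat.sqrt ((x a).length / 4)) := (UPoly.sqrt hdiv).toPoly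
  exact Poly.ite (p := fun a => q a % Nat.sqrt ((x a).length / 4) = 0)
    (Poly.decide_eq (Poly.mod hq hs) (NPC.Poly.const 0)) (NPC.Poly.const false)
    (Poly.getD hx (Poly.add (Poly.mul h4 (Poly.sub hq (NPC.Poly.const 1))) (NPC.Poly.const t))
      (NPC.Poly.const false))

theorem poly_chainL : Poly (fun p : List Bool × ℕ => chainL p.1 p.2) := by
  have hx : Poly (fun p : List Bool × ℕ => p.1) := Poly.fst Poly.id
  have hi : Poly (fun p : List Bool × ℕ => p.2) := Poly.snd Poly.id
  have h4 : Poly (fun _ : List Bool × ℕ => (4 : ℕ)) := NPC.Poly.const 4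
  have hmod : Poly (fun p : List Bool × ℕ => p.2 % 4) := Poly.mod hi h4
  have hdiv : Poly (fun p : List Bool × ℕ => p.2 / 4) := Poly.div hi h4
  have hxi : Poly (fun p : List Bool × ℕ => p.1.getD p.2 false) :=
    Poly.getD hx hi (NPC.Poly.const false)
  have hx1 : Poly (fun p : List Bool × ℕ => p.1.getD (4 * (p.2 / 4) + 1) false) :=
    Poly.getD hx (Poly.add (Poly.mul h4 hdiv) (NPC.Poly.const 1)) (NPC.Poly.const false)
  have hx1' : Poly (fun p : List Bool × ℕ => decide (p.1.getD (4 * (p.2 / 4) + 1) false = true)) :=
    Poly.decide_bool hx1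
  have hp : ∀ t, Poly (fun p : List Bool × ℕ => pvL p.1 (p.2 / 4) t) := fun t =>
    poly_pvL t hx hdiv
  unfold chainL
  refine Poly.ite (Poly.decide_eq hmod (NPC.Poly.const 0)) (Poly.xor hxi (hp 0)) ?_
  refine Poly.ite (Poly.decide_eq hmod (NPC.Poly.const 1)) hxi ?_
  refine Poly.ite (Poly.decide_eq hmod (NPC.Poly.const 2)) ?_ ?_
  · exact Poly.xor hxi (Poly.ite hx1' (hp 3) (hp 2))
  · exact Poly.xor hxi (Poly.ite hx1' (Poly.xor (hp 2) (hp 3)) (hp 3))

/-- The chain function on bit strings of all lengths is computable in polynomial time. -/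
theorem polyTime_chain : PolyTime (fun x : List Bool => List.ofFn (chain x.get)) := by
  refine polyTime_of_poly_list ?_
  refine (NPC.Poly.map (F := fun x i => chainL x i) (UPoly.range (UPoly.length Poly.id))
    poly_chainL).congr fun x => ?_
  refine List.ext_getElem (by simp) fun i h1 h2 => ?_
  simp only [List.getElem_map, List.getElem_range, List.getElem_ofFn]
  rw [chain_get]

end H746R3.Inv
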