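import Pool.Agent.H746R3.Inv.Asym
import Pool.Agent.H746R3.Inv.PolyChain

/-!
# A permutation that constant-depth circuits with modular gates do not invert
-/

namespace H746R3.Inv

open Pool.Agent.NPC

/-- the function on bit strings of all lengths given by functions `f n` on the strings of length
`n` -/
def onStrings (f : ∀ n, (Fin n → Bool) → Fin n → Bool) (x : List Bool) : List Bool :=
  List.ofFn (f x.length x.get)

/-- The number of pairs of a string `x` of length `n` and random bits `ρ` such that the circuit,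
given `f x` and `ρ`, outputs a preimage of `f x`. -/
noncomputable def successes (p : ℕ) {n R : ℕ} (f : (Fin n → Bool) → Fin n → Bool)
    (C : Circuit (Fin n ⊕ Fin R) (Fin n)) : ℕ :=
  Set.ncard {q : (Fin n → Bool) × (Fin R → Bool) |
    ∃ z, C.Computes p (Sum.elim (f q.1) q.2) z ∧ f z = f q.1}

theorem main_theorem :
    ∃ f : ∀ n, (Fin n → Bool) → Fin n → Bool,
      PolyTime (onStrings f) ∧ (∀ n, Function.Bijective (f n)) ∧
      (∀ n, ∀ i : Fin n, ∃ T : Finset (Fin n), T.card ≤ 4 ∧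
        ∀ x x' : Fin n → Bool, (∀ j ∈ T, x j = x' j) → f n x i = f n x' i) ∧
      ∀ p : ℕ, p.Prime → ∀ h : ℕ, 1 ≤ h → ∀ δ : ℝ, 0 < δ → 4 * h * δ < 1 →
        ∃ N : ℕ, ∀ n ≥ N, ∀ R : ℕ, ∀ C : Circuit (Fin n ⊕ Fin R) (Fin n), C.DepthLE h →
          (C.tameGates : ℝ) ≤ 2 ^ ((n : ℝ) ^ δ) → (C.wildGates : ℝ) ≤ Real.sqrt n / 20000 →
          (successes p (f n) C : ℝ) ≤ 2 ^ ((n : ℝ) + R - (n : ℝ) ^ δ) := by
  classical
  refine ⟨fun n => chain, polyTime_chain, fun n => chain_bijective, fun n i => chain_local i, ?_⟩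
  intro p hp h hh δ hδ hhδ
  have : Fact p.Prime := ⟨hp⟩
  obtain ⟨N, hN⟩ := asym p h hh δ hδ hhδ
  refine ⟨N, fun n hn R C hC ht hw => ?_⟩
  refine le_trans (le_of_eq ?_) (hN n hn R C hC ht hw)
  unfold successes
  rw [Set.ncard_eq_toFinset_card']
  congr 2
  ext q
  simp

end H746R3.Inv
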