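import Pool.Agent.H746R3.Inv.Approx

/-!
# Approximation of a whole circuit
-/

namespace H746R3.Inv

open Finset

variable {p : ℕ} [Fact p.Prime] {K : Type*} [Field K] [Algebra (ZMod p) K]
  {V : Type*} [Fintype V] [DecidableEq V] {I O : Type}

/-- the run of a circuit -/
noncomputable def Circuit.run (p : ℕ) (C : Circuit I O) (x : I → Bool) : Fin C.G → Bool :=
  (C.existsUnique_run p x).choose

theorem Circuit.run_isRun (p : ℕ) (C : Circuit I O) (x : I → Bool) : C.IsRun p x (C.run p x) :=
  (C.existsUnique_run p x).choose_spec.1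

theorem Circuit.run_unique (p : ℕ) (C : Circuit I O) (x : I → Bool) (v : Fin C.G → Bool)
    (hv : C.IsRun p x v) : v = C.run p x :=
  (C.existsUnique_run p x).choose_spec.2 v hv

/-- the arbitrary gates -/
abbrev Circuit.Wild (C : Circuit I O) : Type := {g : Fin C.G // (C.kind g).IsWild}

/-- the values of the variables and of the arbitrary gates -/
noncomputable def Circuit.pt (p : ℕ) (C : Circuit I O) (inp : I → (V → Bool) → Bool)
    (y : V → Bool) : V ⊕ C.Wild → Bool :=
  Sum.elim y (fun g => C.run p (fun i => inp i y) g.1)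

/-- the function carried by a wire -/
def wireFn {U : Type*} {G : ℕ} (inp : I → (U → Bool) → Bool) (P : Fin G → (U → Bool) → K)
    (w : Bool × (I ⊕ Fin G)) : (U → Bool) → K :=
  if w.1 then 1 - Sum.elim (fun i y => bK (inp i y)) P w.2
  else Sum.elim (fun i y => bK (inp i y)) P w.2

omit [Fintype V] in
theorem wireFn_mem {G : ℕ} (inp : I → (V → Bool) → Bool)
    (hinp : ∀ i, (fun y => (bK (inp i y) : K)) ∈ LD K V 1) (P : Fin G → (V → Bool) → K) (D : ℕ)
    (hD : 1 ≤ D) (w : Bool × (I ⊕ Fin G)) (hP : ∀ g, w.2 = Sum.inr g → P g ∈ LD K V D) :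
    wireFn inp P w ∈ LD K V D := by
  have h1 : Sum.elim (fun i y => (bK (inp i y) : K)) P w.2 ∈ LD K V D := by
    rcases hw : w.2 with i | g
    · exact LD_mono hD (hinp i)
    · exact hP g hw
  unfold wireFn
  split_ifs
  · exact Submodule.sub_mem _ (one_mem _) h1
  · exact h1

theorem wireFn_val {U : Type*} (C : Circuit I O) (inp : I → (U → Bool) → Bool)
    (P : Fin C.G → (U → Bool) → K) (y : U → Bool) (v : Fin C.G → Bool)
    (w : Bool × (I ⊕ Fin C.G)) (hP : ∀ g, w.2 = Sum.inr g → P g y = bK (v g)) :
    wireFn inp P w y = bK (C.wire (fun i => inp i y) v w) := by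
  have h1 : Sum.elim (fun i y => (bK (inp i y) : K)) P w.2 y =
      bK (Sum.elim (fun i => inp i y) v w.2) := by
    rcases hw : w.2 with i | g
    · rfl
    · exact hP g hw
  unfold wireFn Circuit.wire
  cases w.1
  · simp only [Bool.false_eq_true, if_false, Bool.false_bne]
    rw [h1]
  · simp only [if_true, Pi.sub_apply, Pi.one_apply]
    rw [h1]
    cases Sum.elim (fun i => inp i y) v w.2 <;> simp

theorem gates_approx (C : Circuit I O) (ℓ : ℕ) (hℓ : 1 ≤ ℓ)
    (inp : I → (V → Bool) → Bool) (hinp : ∀ i, (fun y => (bK (inp i y) : K)) ∈ LD K V 1)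
    (L : ℕ) :
    ∃ P : Fin C.G → (V ⊕ C.Wild → Bool) → K, ∃ E : Fin C.G → Finset (V ⊕ C.Wild → Bool),
      (∀ g, C.level g < L → P g ∈ LD K (V ⊕ C.Wild) ((ℓ * (p - 1)) ^ (C.level g + 1))) ∧
      (∀ g, (E g).card * p ^ ℓ ≤ 2 ^ Fintype.card V) ∧
      ∀ y, (∀ g, C.level g < L → C.pt p inp y ∉ E g) → ∀ g, C.level g < L →
        P g (C.pt p inp y) = bK (C.run p (fun i => inp i y) g) := by
  classical
  have hp : 1 < p := (Fact.out : p.Prime).one_lt
  have hD₀ : 1 ≤ ℓ * (p - 1) := Nat.mul_pos hℓ (by omega)
  set inp' : I → (V ⊕ C.Wild → Bool) → Bool := fun i u => inp i (fun v => u (Sum.inl v)) with hinp'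
  have hinp'm : ∀ i, (fun y => (bK (inp' i y) : K)) ∈ LD K (V ⊕ C.Wild) 1 := by
    intro i
    exact comp_mem (fun u : V ⊕ C.Wild → Bool => fun v => u (Sum.inl v))
      (fun v => coord_mem (Sum.inl v)) (hinp i)
  set X₀ : Finset (V ⊕ C.Wild → Bool) := univ.image (C.pt p inp) with hX₀
  have hX₀c : X₀.card ≤ 2 ^ Fintype.card V := by
    refine Finset.card_image_le.trans ?_
    rw [Finset.card_univ, Fintype.card_fun, Fintype.card_bool]
  have hin : ∀ y i, inp' i (C.pt p inp y) = inp i y := fun y i => rfl
  induction L with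
  | zero =>
    refine ⟨fun _ _ => 0, fun _ => ∅, fun g hg => absurd hg (Nat.not_lt_zero _), by simp, ?_⟩
    intro y _ g hg
    exact absurd hg (Nat.not_lt_zero _)
  | succ L ih =>
    obtain ⟨P, E, hP, hE, hrun⟩ := ih
    -- the new gates
    have hnew : ∀ g, C.level g = L →
        ∃ Q ∈ LD K (V ⊕ C.Wild) ((ℓ * (p - 1)) ^ (C.level g + 1)),
          ∃ F : Finset (V ⊕ C.Wild → Bool),
          F.card * p ^ ℓ ≤ 2 ^ Fintype.card V ∧
          ∀ y, C.pt p inp y ∉ F →
            (∀ g', C.level g' < L → P g' (C.pt p inp y) = bK (C.run p (fun i => inp i y) g')) →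
            Q (C.pt p inp y) = bK (C.run p (fun i => inp i y) g) := by
      intro g hg
      by_cases hw : (C.kind g).IsWild
      · refine ⟨fun u => bK (u (Sum.inr ⟨g, hw⟩)), ?_, ∅, by simp, ?_⟩
        · exact LD_mono (Nat.one_le_pow _ _ hD₀) (coord_mem _)
        · intro y _ _
          rfl
      · obtain ⟨Q, hQ, F, hF, hQF⟩ := gate_approx (p := p) (K := K) X₀
          ((ℓ * (p - 1)) ^ C.level g) ℓ hℓ (C.kind g) hw
          (C.wires g).length (fun i => wireFn inp' P ((C.wires g).get i)) (by
            intro i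
            refine wireFn_mem inp' hinp'm P _ (Nat.one_le_pow _ _ hD₀) _ ?_
            intro g' hg'
            have h2 : C.level g' < C.level g := by
              refine C.level_lt g ((C.wires g).get i).1 g' ?_
              rw [← hg']
              exact List.get_mem _ _
            exact LD_mono (Nat.pow_le_pow_right hD₀ h2) (hP g' (by omega)))
        refine ⟨Q, ?_, F, hF.trans hX₀c, ?_⟩
        · rwa [show ℓ * ((p - 1) * (ℓ * (p - 1)) ^ C.level g) =
            (ℓ * (p - 1)) ^ (C.level g + 1) by rw [pow_succ]; ring] at hQ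
        · intro y hy hold
          set v := C.run p (fun i => inp i y) with hv
          have hvr : C.IsRun p (fun i => inp i y) v := C.run_isRun p _
          have hmap : List.ofFn (fun i => C.wire (fun i => inp i y) v ((C.wires g).get i)) =
              (C.wires g).map (C.wire (fun i => inp i y) v) := by
            conv_rhs => rw [← List.ofFn_get (C.wires g), List.map_ofFn]
            rfl
          have h2 := hQF (C.pt p inp y) (Finset.mem_image_of_mem _ (Finset.mem_univ y)) hy
            (fun i => C.wire (fun i => inp i y) v ((C.wires g).get i)) ?_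
          · rw [h2, hmap, ← hvr g]
          · intro i
            refine wireFn_val C inp' P (C.pt p inp y) v _ ?_
            intro g' hg'
            have h2 : C.level g' < C.level g := by
              refine C.level_lt g ((C.wires g).get i).1 g' ?_
              rw [← hg']
              exact List.get_mem _ _
            exact hold g' (by omega)
    choose Q hQ F hF hQF using hnew
    refine ⟨fun g => if h : C.level g = L then Q g h else P g,
      fun g => if h : C.level g = L then F g h else E g, ?_, ?_, ?_⟩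
    · intro g hg
      by_cases h : C.level g = L
      · simp only [dif_pos h]
        exact hQ g h
      · simp only [dif_neg h]
        exact hP g (by omega)
    · intro g
      by_cases h : C.level g = L
      · simp only [dif_pos h]
        exact hF g h
      · simp only [dif_neg h]
        exact hE g
    · intro y hy g hg
      have hold : ∀ g, C.level g < L → P g (C.pt p inp y) = bK (C.run p (fun i => inp i y) g) := by
        refine hrun y ?_
        intro g hg
        have := hy g (by omega)
        have hne : ¬ C.level g = L := by omega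
        simpa only [dif_neg hne] using this
      by_cases h : C.level g = L
      · simp only [dif_pos h]
        have h1 := hy g (by omega)
        simp only [dif_pos h] at h1
        exact hQF g h y h1 hold
      · simp only [dif_neg h]
        exact hold g (by omega)

/-- The outputs of a circuit of small depth are given by functions of low degree of the inputs and
the values of the arbitrary gates, up to few errors. -/
theorem global_approx (C : Circuit I O) (ℓ : ℕ) (hℓ : 1 ≤ ℓ) (h : ℕ) (hC : C.DepthLE h)
    (inp : I → (V → Bool) → Bool) (hinp : ∀ i, (fun y => (bK (inp i y) : K)) ∈ LD K V 1) :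
    ∃ P : O → (V ⊕ C.Wild → Bool) → K, (∀ j, P j ∈ LD K (V ⊕ C.Wild) ((ℓ * (p - 1)) ^ h)) ∧
      ∃ E : Finset (V → Bool), E.card * p ^ ℓ ≤ C.G * 2 ^ Fintype.card V ∧
      ∀ y ∉ E, ∀ j, P j (C.pt p inp y) =
        bK (C.wire (fun i => inp i y) (C.run p (fun i => inp i y)) (C.out j)) := by
  classical
  have hp : 1 < p := (Fact.out : p.Prime).one_lt
  have hD₀ : 1 ≤ ℓ * (p - 1) := Nat.mul_pos hℓ (by omega)
  obtain ⟨P, E, hP, hE, hrun⟩ := gates_approx (p := p) (K := K) C ℓ hℓ inp hinp h
  set inp' : I → (V ⊕ C.Wild → Bool) → Bool := fun i u => inp i (fun v => u (Sum.inl v)) with hinp'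
  have hinp'm : ∀ i, (fun y => (bK (inp' i y) : K)) ∈ LD K (V ⊕ C.Wild) 1 := by
    intro i
    exact comp_mem (fun u : V ⊕ C.Wild → Bool => fun v => u (Sum.inl v))
      (fun v => coord_mem (Sum.inl v)) (hinp i)
  refine ⟨fun j => wireFn inp' P (C.out j), ?_,
    univ.filter (fun y => C.pt p inp y ∈ univ.biUnion E), ?_, ?_⟩
  · intro j
    refine wireFn_mem inp' hinp'm P _ (Nat.one_le_pow _ _ hD₀) _ ?_
    intro g _
    exact LD_mono (Nat.pow_le_pow_right hD₀ (hC g)) (hP g (hC g))
  · have h0 : (univ.filter (fun y => C.pt p inp y ∈ univ.biUnion E)).card ≤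
        (univ.biUnion E).card := by
      refine Finset.card_le_card_of_injOn (C.pt p inp) ?_ ?_
      · intro y hy
        exact (Finset.mem_filter.1 (Finset.mem_coe.1 hy)).2
      · intro y _ y' _ hyy
        funext v
        exact congrFun hyy (Sum.inl v)
    calc (univ.filter (fun y => C.pt p inp y ∈ univ.biUnion E)).card * p ^ ℓ
        ≤ (univ.biUnion E).card * p ^ ℓ := Nat.mul_le_mul_right _ h0
      _ ≤ (∑ g, (E g).card) * p ^ ℓ :=
          Nat.mul_le_mul_right _ Finset.card_biUnion_le
      _ = ∑ g, (E g).card * p ^ ℓ := by rw [Finset.sum_mul]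
      _ ≤ ∑ _g : Fin C.G, 2 ^ Fintype.card V := Finset.sum_le_sum fun g _ => hE g
      _ = C.G * 2 ^ Fintype.card V := by
        rw [Finset.sum_const, Finset.card_univ, Fintype.card_fin, smul_eq_mul]
  · intro y hy j
    have hy' : ∀ g, C.pt p inp y ∉ E g := by
      intro g hg
      exact hy (Finset.mem_filter.2 ⟨Finset.mem_univ _,
        Finset.mem_biUnion.2 ⟨g, Finset.mem_univ _, hg⟩⟩)
    refine wireFn_val C inp' P (C.pt p inp y) _ _ ?_
    intro g _
    exact hrun y (fun g _ => hy' g) g (hC g)

end H746R3.Inv
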