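import Pool.Agent.H746R3.Inv.Chain

/-!
# Low degree functions do not invert the chain function
-/

namespace H746R3.Inv

open Finset

variable {K : Type*} [Field K] {n : ℕ}

/-- The polynomials `P i` compute the bits of the preimage of `y` under the chain function. -/
def Inverts (P : Fin n → (Fin n → Bool) → K) (y : Fin n → Bool) : Prop :=
  ∃ x, chain x = y ∧ ∀ i, P i y = bK (x i)

/-- characteristic different from 2 -/
theorem hard_odd (h2 : (2 : K) ≠ 0) (k m r d : ℕ) (hk : k = Nat.sqrt (n / 4))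
    (hm : m * k ≤ n / 4) (hr0 : 1 ≤ r) (hrk : 2 * r < k) (hd : 1 ≤ d) (hr : 400 * d ^ 2 ≤ r)
    (hr' : r ≤ 1600 * d ^ 2) (P : Fin n → (Fin n → Bool) → K)
    (hP : ∀ i, P i ∈ LD K (Fin n) d) (S : Finset (Fin n → Bool))
    (hS : ∀ y ∈ S, Inverts P y) :
    (S.card : ℝ) ≤ 2 * Real.exp (-((m : ℝ) / 1600)) * 2 ^ n := by
  classical
  have hlt : ∀ (j : Fin m) (t : ℕ), t < k → 4 * (j.1 * k + t) + 4 ≤ n := by
    intro j t ht
    have h1 : j.1 * k + k ≤ m * k := by
      have : (j.1 + 1) * k ≤ m * k := Nat.mul_le_mul_right _ j.2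
      linarith
    omega
  set π : Fin m × Fin (2 * r) → Fin n := fun v =>
    ⟨4 * (v.1.1 * k + v.2.1), by have := hlt v.1 v.2.1 (by omega); omega⟩ with hπ
  have hinj : Function.Injective π := by
    rintro ⟨j, t⟩ ⟨j', t'⟩ h
    simp only [hπ, Fin.mk.injEq] at h
    have h3 : j.1 * k + t.1 = j'.1 * k + t'.1 := by omega
    have ht := t.2
    have ht' := t'.2
    have h4 : t.1 = t'.1 := by
      have e1 : (j.1 * k + t.1) % k = t.1 := by
        rw [Nat.add_comm, Nat.add_mul_mod_self_right, Nat.mod_eq_of_lt (by omega)]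
      have e2 : (j'.1 * k + t'.1) % k = t'.1 := by
        rw [Nat.add_comm, Nat.add_mul_mod_self_right, Nat.mod_eq_of_lt (by omega)]
      rw [← e1, ← e2, h3]
    have h5 : j.1 = j'.1 := by
      have e1 : j.1 * k = j'.1 * k := by omega
      exact Nat.eq_of_mul_eq_mul_right (by omega) e1
    ext
    · exact h5
    · exact h4
  obtain ⟨c, hc⟩ := exists_slice π hinj S
  set T : Finset (Fin m × Fin (2 * r) → Bool) :=
    univ.filter fun b => Function.extend π b c ∈ S with hT
  set io : Fin m → Fin n := fun j =>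
    ⟨4 * (j.1 * k + (2 * r - 1)), by have := hlt j (2 * r - 1) (by omega); omega⟩ with hio
  set Q : Fin m → ((Fin m × Fin (2 * r)) → Bool) → K := fun j b =>
    1 - 2 * P (io j) (Function.extend π b c) with hQ
  have hQm : ∀ j, Q j ∈ LD K (Fin m × Fin (2 * r)) d := by
    intro j
    have h1 := extend_mem π hinj c (hP (io j))
    have h3 : Q j = (fun _ => (1 : K)) - (2 : K) • (fun b => P (io j) (Function.extend π b c)) := by
      funext b
      simp [hQ]
    rw [h3]
    exact Submodule.sub_mem _ (const_mem _ _) (Submodule.smul_mem _ _ h1)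
  have hTQ : ∀ b ∈ T, ∀ j, Q j b = ∏ t, zz (-1 : K) (b (j, t)) := by
    intro b hb j
    obtain ⟨x, hx, hPx⟩ := hS _ (Finset.mem_filter.1 hb).2
    have h1 : Q j b = zz (-1 : K) (x (io j)) := by
      simp only [hQ]
      rw [hPx (io j)]
      cases x (io j)
      · simp [zz]
      · simp [zz]; ring
    have h3 := chain_parity (K := K) x k hk j.1 (2 * r - 1) (by omega)
      (hlt j (2 * r - 1) (by omega))
    rw [bt_of_lt _ (io j).2] at h3
    rw [h1, show x (io j) = x ⟨4 * (j.1 * k + (2 * r - 1)), (io j).2⟩ from rfl, h3,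
      show 2 * r - 1 + 1 = 2 * r by omega, Finset.prod_range]
    refine Finset.prod_congr rfl fun t _ => ?_
    congr 1
    rw [hx, bt_of_lt _ (π (j, t)).2]
    exact hinj.extend_apply b c (j, t)
  have hbound := dp_bound (J := Fin m) r d hd hr hr' (-1 : K) (by norm_num)
    (fun h => h2 (by linear_combination -h)) T Q hQm hTQ
  rw [Fintype.card_fin] at hbound
  have hc' : (S.card : ℝ) * 2 ^ (m * (2 * r)) ≤ 2 ^ n * T.card := by
    have := hc
    simp only [Fintype.card_prod, Fintype.card_fin] at this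
    exact_mod_cast this
  have h4 : (S.card : ℝ) * 2 ^ (m * (2 * r)) ≤
      (2 * Real.exp (-((m : ℝ) / 1600)) * 2 ^ n) * 2 ^ (m * (2 * r)) := by
    calc _ ≤ 2 ^ n * (T.card : ℝ) := hc'
      _ ≤ 2 ^ n * (2 * Real.exp (-((m : ℝ) / 1600)) * 2 ^ (2 * r * m)) := by gcongr
      _ = _ := by rw [mul_comm (2 * r) m]; ring
  exact le_of_mul_le_mul_right h4 (by positivity)

theorem e4_ne {ω : K} [CharP K 2] (hω : ω ^ 2 + ω + 1 = 0) {a b : Bool × Bool} (h : a ≠ b) :
    e4 ω a.1 a.2 - e4 ω b.1 b.2 ≠ 0 := by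
  have h0 : ω ≠ 0 := by
    rintro rfl
    simp at hω
  have h2 : (1 : K) + 1 = 0 := CharTwo.add_self_eq_zero 1
  have h1 : ω + 1 ≠ 0 := by
    intro h1
    have e1 : ω ^ 2 + ω + 1 = ω * (ω + 1) + 1 := by ring
    rw [e1, h1, mul_zero, zero_add] at hω
    exact one_ne_zero hω
  have h3 : ω - 1 ≠ 0 := by
    intro h3
    apply h1
    linear_combination h3 + h2
  have h4 : -ω - 1 ≠ 0 := by
    intro h4; apply h1; linear_combination -h4
  have h5 : 1 - ω ≠ 0 := by
    intro h5; apply h3; linear_combination -h5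
  obtain ⟨a1, a2⟩ := a
  obtain ⟨b1, b2⟩ := b
  have h6 : 1 + ω ≠ 0 := by rwa [add_comm]
  unfold e4
  cases a1 <;> cases a2 <;> cases b1 <;> cases b2 <;> simp at h ⊢ <;>
    first
    | exact h0
    | (intro hh; exact h1 (by linear_combination hh))
    | (intro hh; exact h1 (by linear_combination -hh))
    | (intro hh; exact h3 (by linear_combination hh))
    | (intro hh; exact h3 (by linear_combination -hh))

open Classical in
/-- characteristic 2 -/
theorem hard_two [CharP K 2] (ω : K) (hω : ω ^ 2 + ω + 1 = 0) (k m r d : ℕ)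
    (hk : k = Nat.sqrt (n / 4))
    (hm : m * k ≤ n / 4) (hr0 : 1 ≤ r) (hrk : 2 * r < k) (hd : 1 ≤ d) (hr : 400 * d ^ 2 ≤ r)
    (hr' : r ≤ 1600 * d ^ 2) (P : Fin n → (Fin n → Bool) → K)
    (hP : ∀ i, P i ∈ LD K (Fin n) d) (S : Finset (Fin n → Bool))
    (hS : ∀ y ∈ S, Inverts P y) :
    (S.card : ℝ) ^ 2 ≤ (2 ^ n) ^ 2 * (2 * Real.exp (-((m : ℝ) / 6400)) + (1 / Real.sqrt 3) ^ m) := by
  have hlt : ∀ (j : Fin m) (t : ℕ), t < k → 4 * (j.1 * k + t) + 4 ≤ n := by
    intro j t ht
    have h1 : j.1 * k + k ≤ m * k := by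
      have : (j.1 + 1) * k ≤ m * k := Nat.mul_le_mul_right _ j.2
      linarith
    omega
  have hcell : ∀ (j j' : Fin m) (t t' : ℕ), t < k → t' < k →
      j.1 * k + t = j'.1 * k + t' → j = j' ∧ t = t' := by
    intro j j' t t' ht ht' h3
    have h4 : t = t' := by
      have e1 : (j.1 * k + t) % k = t := by
        rw [Nat.add_comm, Nat.add_mul_mod_self_right, Nat.mod_eq_of_lt ht]
      have e2 : (j'.1 * k + t') % k = t' := by
        rw [Nat.add_comm, Nat.add_mul_mod_self_right, Nat.mod_eq_of_lt ht']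
      rw [← e1, ← e2, h3]
    refine ⟨?_, h4⟩
    have e1 : j.1 * k = j'.1 * k := by omega
    exact Fin.ext (Nat.eq_of_mul_eq_mul_right (by omega) e1)
  -- the free bits
  set π : (Fin m × Fin (2 * r)) ⊕ (Fin m × Bool) → Fin n := Sum.elim
    (fun v => ⟨4 * (v.1.1 * k + (v.2.1 + 1)) + 1, by
      have := hlt v.1 (v.2.1 + 1) (by omega); omega⟩)
    (fun v => ⟨4 * (v.1.1 * k) + (if v.2 then 3 else 2), by
      have := hlt v.1 0 (by omega); split_ifs <;> omega⟩) with hπ
  have hinj : Function.Injective π := by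
    rintro (⟨j, t⟩ | ⟨j, b⟩) (⟨j', t'⟩ | ⟨j', b'⟩) h
    · simp only [hπ, Sum.elim_inl, Fin.mk.injEq] at h
      have ht := t.2
      have ht' := t'.2
      obtain ⟨h1, h2⟩ := hcell j j' (t.1 + 1) (t'.1 + 1) (by omega) (by omega) (by omega)
      subst h1
      have : t = t' := Fin.ext (by omega)
      rw [this]
    · simp only [hπ, Sum.elim_inl, Sum.elim_inr, Fin.mk.injEq] at h
      exfalso
      split_ifs at h <;> omega
    · simp only [hπ, Sum.elim_inl, Sum.elim_inr, Fin.mk.injEq] at h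
      exfalso
      split_ifs at h <;> omega
    · simp only [hπ, Sum.elim_inr, Fin.mk.injEq] at h
      have h0 : (if b = true then 3 else 2) = (if b' = true then 3 else 2) := by
        split_ifs at h ⊢ <;> omega
      have hb : b = b' := by
        cases b <;> cases b' <;> simp at h0 ⊢
      subst hb
      obtain ⟨h1, -⟩ := hcell j j' 0 0 (by omega) (by omega) (by omega)
      rw [h1]
  obtain ⟨c, hc⟩ := exists_slice π hinj S
  -- points of the subcube
  set pt : (Fin m × Fin (2 * r) → Bool) → (Fin m → Bool × Bool) →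
      ((Fin m × Fin (2 * r)) ⊕ (Fin m × Bool) → Bool) := fun b e =>
    Sum.elim b (fun v => if v.2 then (e v.1).2 else (e v.1).1) with hpt
  set T : Finset ((Fin m × Fin (2 * r) → Bool) × (Fin m → Bool × Bool)) :=
    univ.filter fun q => Function.extend π (pt q.1 q.2) c ∈ S with hT
  have hTcard : (univ.filter fun b : (Fin m × Fin (2 * r)) ⊕ (Fin m × Bool) → Bool =>
      Function.extend π b c ∈ S).card ≤ T.card := by
    refine Finset.card_le_card_of_injOn
      (fun b => (fun v => b (Sum.inl v), fun j => (b (Sum.inr (j, false)), b (Sum.inr (j, true)))))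
      ?_ ?_
    · intro b hb
      rw [Finset.mem_coe, Finset.mem_filter] at hb ⊢
      refine ⟨Finset.mem_univ _, ?_⟩
      have : pt (fun v => b (Sum.inl v))
          (fun j => (b (Sum.inr (j, false)), b (Sum.inr (j, true)))) = b := by
        funext v
        rcases v with v | ⟨j, b'⟩
        · rfl
        · cases b' <;> rfl
      simp only
      rw [this]
      exact hb.2
    · intro b _ b' _ h
      simp only [Prod.mk.injEq] at h
      funext v
      rcases v with v | ⟨j, b''⟩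
      · exact congrFun h.1 v
      · have := congrFun h.2 j
        simp only [Prod.mk.injEq] at this
        cases b''
        · exact this.1
        · exact this.2
  -- the bound for pairs
  set ε : ℝ := 2 * Real.exp (-((m : ℝ) / 6400)) with hε
  have hpair : ∀ e₀ e₁ : Fin m → Bool × Bool, m ≤ 4 * (univ.filter fun j => e₀ j ≠ e₁ j).card →
      ((univ.filter fun b : Fin m × Fin (2 * r) → Bool => (b, e₀) ∈ T ∧ (b, e₁) ∈ T).card : ℝ) ≤
        ε * Fintype.card (Fin m × Fin (2 * r) → Bool) := by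
    intro e₀ e₁ hJ
    set N : Finset (Fin m × Fin (2 * r) → Bool) :=
      univ.filter fun b : Fin m × Fin (2 * r) → Bool => (b, e₀) ∈ T ∧ (b, e₁) ∈ T with hN
    have hJc : Fintype.card {j : Fin m // e₀ j ≠ e₁ j} = (univ.filter fun j => e₀ j ≠ e₁ j).card := by
      rw [Fintype.card_subtype]
    set π' : {j : Fin m // e₀ j ≠ e₁ j} × Fin (2 * r) → Fin m × Fin (2 * r) := fun v => (v.1.1, v.2) with hπ'
    have hinj' : Function.Injective π' := by
      rintro ⟨⟨j, hj⟩, t⟩ ⟨⟨j', hj'⟩, t'⟩ h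
      simp only [hπ', Prod.mk.injEq] at h
      obtain ⟨h1, h2⟩ := h
      subst h1; subst h2
      rfl
    obtain ⟨c', hc'⟩ := exists_slice π' hinj' N
    set T' : Finset ({j : Fin m // e₀ j ≠ e₁ j} × Fin (2 * r) → Bool) :=
      univ.filter fun b => Function.extend π' b c' ∈ N with hT'
    set Y : ({j : Fin m // e₀ j ≠ e₁ j} × Fin (2 * r) → Bool) → (Fin m → Bool × Bool) → (Fin n → Bool) := fun b e =>
      Function.extend π (pt (Function.extend π' b c') e) c with hY
    set i2 : Fin m → Fin n := fun j => ⟨4 * (j.1 * k + 2 * r) + 2, by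
      have := hlt j (2 * r) hrk; omega⟩ with hi2
    set i3 : Fin m → Fin n := fun j => ⟨4 * (j.1 * k + 2 * r) + 3, by
      have := hlt j (2 * r) hrk; omega⟩ with hi3
    set E : {j : Fin m // e₀ j ≠ e₁ j} → K := fun j => e4 ω (e₀ j.1).1 (e₀ j.1).2 - e4 ω (e₁ j.1).1 (e₁ j.1).2 with hE
    have hE0 : ∀ j, E j ≠ 0 := fun j => e4_ne hω j.2
    have hYm : ∀ (i : Fin n) (e : Fin m → Bool × Bool),
        (fun b => P i (Y b e)) ∈ LD K ({j : Fin m // e₀ j ≠ e₁ j} × Fin (2 * r)) d := by
      intro i e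
      have h1 := extend_mem π hinj c (hP i)
      have h3 : (fun b => P i (Function.extend π (pt b e) c)) ∈ LD K (Fin m × Fin (2 * r)) d := by
        refine comp_mem (fun b => pt b e) ?_ h1
        rintro (v | v)
        · exact coord_mem v
        · exact const_mem (bK (if v.2 then (e v.1).2 else (e v.1).1)) 1
      exact extend_mem π' hinj' c' h3
    set Q : {j : Fin m // e₀ j ≠ e₁ j} → (({j : Fin m // e₀ j ≠ e₁ j} × Fin (2 * r)) → Bool) → K := fun j b =>
      (E j)⁻¹ * ((P (i2 j.1) (Y b e₀) + ω * P (i3 j.1) (Y b e₀)) -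
        (P (i2 j.1) (Y b e₁) + ω * P (i3 j.1) (Y b e₁))) with hQ
    have hQm : ∀ j, Q j ∈ LD K ({j : Fin m // e₀ j ≠ e₁ j} × Fin (2 * r)) d := by
      intro j
      have h3 : Q j = (E j)⁻¹ • (((fun b => P (i2 j.1) (Y b e₀)) +
          ω • (fun b => P (i3 j.1) (Y b e₀))) - ((fun b => P (i2 j.1) (Y b e₁)) +
          ω • (fun b => P (i3 j.1) (Y b e₁)))) := by
        funext b
        simp [hQ]
      rw [h3]
      exact Submodule.smul_mem _ _ (Submodule.sub_mem _
        (Submodule.add_mem _ (hYm _ _) (Submodule.smul_mem _ _ (hYm _ _)))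
        (Submodule.add_mem _ (hYm _ _) (Submodule.smul_mem _ _ (hYm _ _))))
    have hTQ : ∀ b ∈ T', ∀ j, Q j b = ∏ t, zz ω (b (j, t)) := by
      intro b hb j
      have hbN := (Finset.mem_filter.1 hb).2
      obtain ⟨-, hbT0, hbT1⟩ := Finset.mem_filter.1 hbN
      have hy0 : Y b e₀ ∈ S := (Finset.mem_filter.1 hbT0).2
      have hy1 : Y b e₁ ∈ S := (Finset.mem_filter.1 hbT1).2
      obtain ⟨x, hx, hPx⟩ := hS _ hy0
      obtain ⟨x', hx', hPx'⟩ := hS _ hy1
      -- the two points agree outside the special bits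
      have hag : ∀ v : Fin n, (∀ w, π (Sum.inr w) ≠ v) → Y b e₀ v = Y b e₁ v := by
        intro v hv
        simp only [hY]
        by_cases hvr : ∃ w, π w = v
        · obtain ⟨w, rfl⟩ := hvr
          rw [hinj.extend_apply, hinj.extend_apply]
          rcases w with w | w
          · rfl
          · exact absurd rfl (hv w)
        · rw [Function.extend_apply' _ _ _ hvr, Function.extend_apply' _ _ _ hvr]
      have hin : ∀ t : Fin (2 * r), bt (Y b e₀) (4 * (j.1.1 * k + (t.1 + 1)) + 1) = b (j, t) := by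
        intro t
        have hb' := (π (Sum.inl (j.1, t))).2
        rw [bt_of_lt _ (by have := hlt j.1 (t.1 + 1) (by omega); omega)]
        have : (⟨4 * (j.1.1 * k + (t.1 + 1)) + 1, by
            have := hlt j.1 (t.1 + 1) (by omega); omega⟩ : Fin n) = π (Sum.inl (j.1, t)) := rfl
        rw [this]
        simp only [hY]
        rw [hinj.extend_apply]
        exact hinj'.extend_apply b c' (j, t)
      have hsp2 : ∀ e : Fin m → Bool × Bool, bt (Y b e) (4 * (j.1.1 * k) + 2) = (e j.1).1 := by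
        intro e
        rw [bt_of_lt _ (by have := hlt j.1 0 (by omega); omega)]
        have : (⟨4 * (j.1.1 * k) + 2, by
            have := hlt j.1 0 (by omega); omega⟩ : Fin n) = π (Sum.inr (j.1, false)) := rfl
        rw [this]
        simp only [hY]
        rw [hinj.extend_apply]
        rfl
      have hsp3 : ∀ e : Fin m → Bool × Bool, bt (Y b e) (4 * (j.1.1 * k) + 3) = (e j.1).2 := by
        intro e
        rw [bt_of_lt _ (by have := hlt j.1 0 (by omega); omega)]
        have : (⟨4 * (j.1.1 * k) + 3, by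
            have := hlt j.1 0 (by omega); omega⟩ : Fin n) = π (Sum.inr (j.1, true)) := rfl
        rw [this]
        simp only [hY]
        rw [hinj.extend_apply]
        rfl
      have hbt : ∀ (t s : ℕ), 1 ≤ t → t ≤ 2 * r → s < 4 → 1 ≤ s →
          bt (Y b e₀) (4 * (j.1.1 * k + t) + s) = bt (Y b e₁) (4 * (j.1.1 * k + t) + s) := by
        intro t s ht1 ht2 hs4 hs1
        have hl := hlt j.1 t (by omega)
        rw [bt_of_lt _ (by omega), bt_of_lt _ (by omega)]
        refine hag _ ?_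
        rintro ⟨j', b'⟩ h
        simp only [hπ, Sum.elim_inr, Fin.mk.injEq] at h
        have h5 : j'.1 * k + 0 = j.1.1 * k + t := by
          split_ifs at h <;> omega
        have := (hcell j' j.1 0 t (by omega) (by omega) h5).2
        omega
      have h3 := chain_diff ω hω x x' k hk j.1.1 (2 * r) hrk (hlt j.1 (2 * r) hrk)
        (by intro t h1 h2; rw [hx, hx']; exact hbt t 1 h1 h2 (by norm_num) (by norm_num))
        (by intro t h1 h2; rw [hx, hx']; exact hbt t 2 h1 h2 (by norm_num) (by norm_num))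
        (by intro t h1 h2; rw [hx, hx']; exact hbt t 3 h1 h2 (by norm_num) (by norm_num))
      rw [hx, hx', hsp2, hsp3, hsp2, hsp3, bt_of_lt x (i2 j.1).2, bt_of_lt x (i3 j.1).2,
        bt_of_lt x' (i2 j.1).2, bt_of_lt x' (i3 j.1).2] at h3
      have h4 : Q j b = (E j)⁻¹ * (e4 ω (x (i2 j.1)) (x (i3 j.1)) -
          e4 ω (x' (i2 j.1)) (x' (i3 j.1))) := by
        simp only [hQ]
        rw [hPx, hPx, hPx', hPx']
        rfl
      rw [h4]
      have h5 : e4 ω (x (i2 j.1)) (x (i3 j.1)) - e4 ω (x' (i2 j.1)) (x' (i3 j.1)) =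
          (∏ t ∈ range (2 * r), zz ω (bt (Y b e₀) (4 * (j.1.1 * k + (t + 1)) + 1))) * E j := h3
      rw [h5, mul_comm, mul_assoc, mul_inv_cancel₀ (hE0 j), mul_one, Finset.prod_range]
      refine Finset.prod_congr rfl fun t _ => ?_
      rw [hin t]
    have hζ0 : ω ≠ 0 := by
      rintro rfl
      simp at hω
    have hζ1 : ω ≠ 1 := by
      rintro rfl
      have h2 : (1 : K) + 1 = 0 := CharTwo.add_self_eq_zero 1
      rw [one_pow, h2, zero_add] at hω
      exact one_ne_zero hω
    have hbound := dp_bound (J := {j : Fin m // e₀ j ≠ e₁ j}) r d hd hr hr' ω hζ0 hζ1 T' Q hQm hTQ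
    have hc'' : (N.card : ℝ) * 2 ^ (Fintype.card {j : Fin m // e₀ j ≠ e₁ j} * (2 * r)) ≤ 2 ^ (m * (2 * r)) * T'.card := by
      have := hc'
      simp only [Fintype.card_prod, Fintype.card_fin] at this
      exact_mod_cast this
    have hJm : (m : ℝ) / 6400 ≤ (Fintype.card {j : Fin m // e₀ j ≠ e₁ j} : ℝ) / 1600 := by
      rw [hJc]
      have : (m : ℝ) ≤ 4 * ((univ.filter fun j => e₀ j ≠ e₁ j).card : ℝ) := by exact_mod_cast hJ
      linarith
    have hexp : Real.exp (-((Fintype.card {j : Fin m // e₀ j ≠ e₁ j} : ℝ) / 1600)) ≤ Real.exp (-((m : ℝ) / 6400)) :=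
      Real.exp_le_exp.2 (neg_le_neg hJm)
    have h6 : (N.card : ℝ) * 2 ^ (Fintype.card {j : Fin m // e₀ j ≠ e₁ j} * (2 * r)) ≤
        (ε * 2 ^ (m * (2 * r))) * 2 ^ (Fintype.card {j : Fin m // e₀ j ≠ e₁ j} * (2 * r)) := by
      calc _ ≤ 2 ^ (m * (2 * r)) * (T'.card : ℝ) := hc''
        _ ≤ 2 ^ (m * (2 * r)) * (2 * Real.exp (-((Fintype.card {j : Fin m // e₀ j ≠ e₁ j} : ℝ) / 1600)) *
            2 ^ (2 * r * Fintype.card {j : Fin m // e₀ j ≠ e₁ j})) := by gcongr
        _ ≤ 2 ^ (m * (2 * r)) * (2 * Real.exp (-((m : ℝ) / 6400)) *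
            2 ^ (2 * r * Fintype.card {j : Fin m // e₀ j ≠ e₁ j})) := by gcongr
        _ = _ := by rw [hε, mul_comm (2 * r) (Fintype.card {j : Fin m // e₀ j ≠ e₁ j})]; ring
    have h7 : (N.card : ℝ) ≤ ε * 2 ^ (m * (2 * r)) := le_of_mul_le_mul_right h6 (by positivity)
    have h8 : (Fintype.card (Fin m × Fin (2 * r) → Bool) : ℝ) = 2 ^ (m * (2 * r)) := by
      simp [Fintype.card_pi]
    rw [h8]
    exact h7
  have hfin := pair_bound (by simp) T ε (by positivity) (by
    intro e₀ e₁ hm'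
    have h1 := hpair e₀ e₁ (by convert hm')
    convert h1)
  have h8 : (Fintype.card (Fin m × Fin (2 * r) → Bool) : ℝ) = 2 ^ (m * (2 * r)) := by
    simp [Fintype.card_pi]
  rw [h8] at hfin
  have hc1 : (S.card : ℝ) * (2 ^ (m * (2 * r)) * 4 ^ m) ≤ 2 ^ n * T.card := by
    have h9 := hc.trans (Nat.mul_le_mul_left _ hTcard)
    simp only [Fintype.card_sum, Fintype.card_prod, Fintype.card_fin, Fintype.card_bool] at h9
    have h10 : (2 : ℕ) ^ (m * (2 * r) + m * 2) = 2 ^ (m * (2 * r)) * 4 ^ m := by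
      rw [pow_add, mul_comm m 2, pow_mul 2 2 m]; norm_num
    rw [h10] at h9
    exact_mod_cast h9
  have h11 : ((S.card : ℝ) * (2 ^ (m * (2 * r)) * 4 ^ m)) ^ 2 ≤
      ((2 ^ n) ^ 2 * (ε + (1 / Real.sqrt 3) ^ m)) * (2 ^ (m * (2 * r)) * 4 ^ m) ^ 2 := by
    calc ((S.card : ℝ) * (2 ^ (m * (2 * r)) * 4 ^ m)) ^ 2 ≤ (2 ^ n * (T.card : ℝ)) ^ 2 := by
          gcongr
      _ = (2 ^ n) ^ 2 * (T.card : ℝ) ^ 2 := by ring
      _ ≤ (2 ^ n) ^ 2 * ((2 ^ (m * (2 * r)) * 4 ^ m) ^ 2 * (ε + (1 / Real.sqrt 3) ^ m)) := by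
          gcongr
      _ = _ := by ring
  rw [mul_pow] at h11
  exact le_of_mul_le_mul_right h11 (by positivity)

end H746R3.Inv
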