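import Pool.Agent.H746R3.Inv.Global
import Pool.Agent.H746R3.Inv.Hard

/-!
# Circuits do not invert the chain function
-/

namespace H746R3.Inv

open Finset

theorem hard {n : ℕ} (p : ℕ) [Fact p.Prime] (k m r d : ℕ) (hk : k = Nat.sqrt (n / 4))
    (hm : m * k ≤ n / 4) (hr0 : 1 ≤ r) (hrk : 2 * r < k) (hd : 1 ≤ d) (hr : 400 * d ^ 2 ≤ r)
    (hr' : r ≤ 1600 * d ^ 2) (P : Fin n → (Fin n → Bool) → AlgebraicClosure (ZMod p))
    (hP : ∀ i, P i ∈ LD _ (Fin n) d) (S : Finset (Fin n → Bool))
    (hS : ∀ y ∈ S, Inverts P y) :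
    (S.card : ℝ) ≤ 2 * Real.exp (-((m : ℝ) / 12800)) * 2 ^ n := by
  by_cases hp : p = 2
  · subst hp
    have : CharP (AlgebraicClosure (ZMod 2)) 2 :=
      charP_of_injective_algebraMap (algebraMap (ZMod 2) (AlgebraicClosure (ZMod 2))).injective 2
    obtain ⟨ω, hω⟩ := IsAlgClosed.exists_root
      (Polynomial.X ^ 2 + Polynomial.X + 1 : Polynomial (AlgebraicClosure (ZMod 2)))
      (by
        have : (Polynomial.X ^ 2 + Polynomial.X + 1 :
            Polynomial (AlgebraicClosure (ZMod 2))).degree = 2 := by compute_degree!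
        rw [this]; norm_num)
    have hω' : ω ^ 2 + ω + 1 = 0 := by
      simpa [Polynomial.IsRoot.def] using hω
    have h1 := hard_two ω hω' k m r d hk hm hr0 hrk hd hr hr' P hP S hS
    have h2 : (1 / Real.sqrt 3) ^ m ≤ Real.exp (-((m : ℝ) / 6400)) := by
      have e1 : Real.exp (-((m : ℝ) / 6400)) = Real.exp (-(1 / 6400)) ^ m := by
        rw [← Real.exp_nat_mul]; congr 1; ring
      rw [e1]
      refine pow_le_pow_left₀ (by positivity) ?_ m
      have e2 : (5 / 3 : ℝ) ≤ Real.sqrt 3 := by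
        refine Real.le_sqrt_of_sq_le ?_
        norm_num
      have e3 : 1 / Real.sqrt 3 ≤ 3 / 5 := by
        rw [div_le_div_iff₀ (by positivity) (by norm_num)]
        linarith
      have e4 := Real.add_one_le_exp (-(1 / 6400) : ℝ)
      linarith
    have h3 : (S.card : ℝ) ^ 2 ≤ (2 * Real.exp (-((m : ℝ) / 12800)) * 2 ^ n) ^ 2 := by
      have e1 : Real.exp (-((m : ℝ) / 12800)) ^ 2 = Real.exp (-((m : ℝ) / 6400)) := by
        rw [← Real.exp_nat_mul]; congr 1; push_cast; ring
      calc (S.card : ℝ) ^ 2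
          ≤ (2 ^ n) ^ 2 * (2 * Real.exp (-((m : ℝ) / 6400)) + (1 / Real.sqrt 3) ^ m) := h1
        _ ≤ (2 ^ n) ^ 2 * (2 * Real.exp (-((m : ℝ) / 6400)) +
              Real.exp (-((m : ℝ) / 6400))) := by gcongr
        _ ≤ (2 ^ n) ^ 2 * (4 * Real.exp (-((m : ℝ) / 6400))) := by
            have := Real.exp_pos (-((m : ℝ) / 6400))
            gcongr
            linarith
        _ = _ := by rw [mul_pow, mul_pow, e1]; ring
    exact le_of_sq_le_sq h3 (by positivity)
  · have h2 : (2 : AlgebraicClosure (ZMod p)) ≠ 0 := by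
      have : CharP (AlgebraicClosure (ZMod p)) p :=
        charP_of_injective_algebraMap (algebraMap (ZMod p) (AlgebraicClosure (ZMod p))).injective p
      intro h
      have h3 : ((2 : ℕ) : AlgebraicClosure (ZMod p)) = 0 := by exact_mod_cast h
      rw [CharP.cast_eq_zero_iff (AlgebraicClosure (ZMod p)) p] at h3
      have := (Nat.prime_dvd_prime_iff_eq (Fact.out : p.Prime) Nat.prime_two).1 h3
      exact hp this
    refine (hard_odd h2 k m r d hk hm hr0 hrk hd hr hr' P hP S hS).trans ?_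
    gcongr
    norm_num

theorem card_le_of_sections {A B : Type*} [Fintype A] [Fintype B] [DecidableEq B]
    (Q : A → B → Prop) [∀ a b, Decidable (Q a b)] (M : ℝ)
    (h : ∀ b, ((univ.filter fun a => Q a b).card : ℝ) ≤ M) :
    ((univ.filter fun q : A × B => Q q.1 q.2).card : ℝ) ≤ Fintype.card B * M := by
  classical
  have h1 : (univ.filter fun q : A × B => Q q.1 q.2).card =
      ∑ b : B, (univ.filter fun a => Q a b).card := by
    rw [Finset.card_eq_sum_card_fiberwise (f := Prod.snd) (t := univ)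
      (fun _ _ => Finset.mem_coe.2 (Finset.mem_univ _))]
    refine Finset.sum_congr rfl fun b _ => ?_
    refine Finset.card_bij' (fun q _ => q.1) (fun a _ => (a, b)) ?_ ?_ ?_ ?_
    · rintro ⟨a, b'⟩ hq
      simp only [Finset.mem_filter, Finset.mem_univ, true_and] at hq ⊢
      rw [← hq.2]; exact hq.1
    · intro a ha
      simp only [Finset.mem_filter, Finset.mem_univ, true_and] at ha ⊢
      exact ⟨ha, trivial⟩
    · rintro ⟨a, b'⟩ hq
      simp only [Finset.mem_filter, Finset.mem_univ, true_and] at hq ⊢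
      rw [← hq.2]
    · intro a _
      rfl
  rw [h1]
  push_cast
  calc ∑ b : B, ((univ.filter fun a => Q a b).card : ℝ) ≤ ∑ _b : B, M :=
        Finset.sum_le_sum fun b _ => h b
    _ = Fintype.card B * M := by rw [Finset.sum_const, Finset.card_univ, nsmul_eq_mul]

open Classical in
/-- the bound for a fixed length of the inputs -/
theorem main_bound {n R : ℕ} (p : ℕ) [Fact p.Prime] (C : Circuit (Fin n ⊕ Fin R) (Fin n))
    (h ℓ k r d : ℕ) (hC : C.DepthLE h) (hℓ : 1 ≤ ℓ) (hk : k = Nat.sqrt (n / 4))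
    (hr0 : 1 ≤ r) (hrk : 2 * r < k) (hd : 1 ≤ d) (hr : 400 * d ^ 2 ≤ r)
    (hr' : r ≤ 1600 * d ^ 2) (hD : (ℓ * (p - 1)) ^ h ≤ d) :
    ((univ.filter fun q : (Fin n → Bool) × (Fin R → Bool) =>
      ∃ z, C.Computes p (Sum.elim (chain q.1) q.2) z ∧ chain z = chain q.1).card : ℝ) ≤
      2 ^ R * (2 ^ n * (C.G / p ^ ℓ +
        2 ^ C.wildGates * (2 * Real.exp (-((k : ℝ) / 12800))))) := by
  have hcardR : (Fintype.card (Fin R → Bool) : ℝ) = 2 ^ R := by
    rw [Fintype.card_fun, Fintype.card_bool, Fintype.card_fin]; push_cast; rfl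
  rw [← hcardR]
  refine card_le_of_sections (fun (x : Fin n → Bool) (ρ : Fin R → Bool) =>
    ∃ z, C.Computes p (Sum.elim (chain x) ρ) z ∧ chain z = chain x) _ ?_
  intro ρ
  set B : Finset (Fin n → Bool) := univ.filter fun y =>
    ∃ z, C.Computes p (Sum.elim y ρ) z ∧ chain z = y with hB
  have h1 : (univ.filter fun x : Fin n → Bool =>
      ∃ z, C.Computes p (Sum.elim (chain x) ρ) z ∧ chain z = chain x).card ≤ B.card := by
    refine Finset.card_le_card_of_injOn chain ?_ (chain_injective.injOn)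
    intro x hx
    exact Finset.mem_coe.2 (Finset.mem_filter.2 ⟨Finset.mem_univ _,
      (Finset.mem_filter.1 (Finset.mem_coe.1 hx)).2⟩)
  have h1' : ((univ.filter fun x : Fin n → Bool =>
      ∃ z, C.Computes p (Sum.elim (chain x) ρ) z ∧ chain z = chain x).card : ℝ) ≤ B.card := by
    exact_mod_cast h1
  refine h1'.trans ?_
  -- the polynomials
  set inp : Fin n ⊕ Fin R → (Fin n → Bool) → Bool :=
    fun i y => Sum.elim y ρ i with hinp
  have hinpm : ∀ i, (fun y => (bK (inp i y) : AlgebraicClosure (ZMod p))) ∈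
      LD (AlgebraicClosure (ZMod p)) (Fin n) 1 := by
    rintro (i | j)
    · exact coord_mem i
    · exact const_mem (bK (ρ j)) 1
  obtain ⟨P, hP, E, hE, hPE⟩ := global_approx (p := p) (K := AlgebraicClosure (ZMod p)) C ℓ hℓ h hC
    inp hinpm
  set S : (C.Wild → Bool) → Finset (Fin n → Bool) := fun γ => univ.filter fun y =>
    y ∉ E ∧ y ∈ B ∧ ∀ g : C.Wild, C.run p (fun i => inp i y) g.1 = γ g with hS
  have hSb : ∀ γ, ((S γ).card : ℝ) ≤ 2 * Real.exp (-((k : ℝ) / 12800)) * 2 ^ n := by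
    intro γ
    refine hard p k k r d hk (by rw [hk]; exact Nat.sqrt_le _) hr0 hrk hd hr hr'
      (fun j y => P j (Sum.elim y γ)) ?_ (S γ) ?_
    · intro j
      refine LD_mono hD (comp_mem (fun y : Fin n → Bool => (Sum.elim y γ : Fin n ⊕ C.Wild → Bool))
        ?_ (hP j))
      rintro (i | g)
      · exact coord_mem i
      · exact const_mem (bK (γ g)) 1
    · intro y hy
      obtain ⟨-, hyE, hyB, hyγ⟩ := Finset.mem_filter.1 hy
      obtain ⟨-, z, ⟨v, hv, hz⟩, hzy⟩ := Finset.mem_filter.1 hyB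
      refine ⟨z, hzy, fun j => ?_⟩
      have e1 : v = C.run p (fun i => inp i y) := C.run_unique p _ v hv
      have e2 : (Sum.elim y γ : Fin n ⊕ C.Wild → Bool) = C.pt p inp y := by
        funext u
        rcases u with u | g
        · rfl
        · exact (hyγ g).symm
      show P j (Sum.elim y γ) = _
      rw [e2, hPE y hyE j, hz j, e1]
  have hcover : B ⊆ E ∪ univ.biUnion S := by
    intro y hy
    by_cases hyE : y ∈ E
    · exact Finset.mem_union_left _ hyE
    · exact Finset.mem_union_right _ (Finset.mem_biUnion.2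
        ⟨fun g => C.run p (fun i => inp i y) g.1, Finset.mem_univ _,
          Finset.mem_filter.2 ⟨Finset.mem_univ _, hyE, hy, fun _ => rfl⟩⟩)
  have hBc : (B.card : ℝ) ≤ E.card + ∑ γ : C.Wild → Bool, ((S γ).card : ℝ) := by
    have e1 : B.card ≤ E.card + ∑ γ : C.Wild → Bool, (S γ).card :=
      (Finset.card_le_card hcover).trans ((Finset.card_union_le _ _).trans
        (Nat.add_le_add_left Finset.card_biUnion_le _))
    exact_mod_cast e1
  have hpp : (0 : ℝ) < (p : ℝ) ^ ℓ := by
    have : 0 < p := (Fact.out : p.Prime).pos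
    positivity
  have hEc : (E.card : ℝ) ≤ 2 ^ n * (C.G / p ^ ℓ) := by
    rw [mul_div_assoc', le_div_iff₀ hpp]
    have e1 : E.card * p ^ ℓ ≤ C.G * 2 ^ n := by simpa using hE
    have e2 : (E.card : ℝ) * p ^ ℓ ≤ C.G * 2 ^ n := by exact_mod_cast e1
    linarith
  have hcW : (Fintype.card (C.Wild → Bool) : ℝ) = 2 ^ C.wildGates := by
    rw [Fintype.card_fun, Fintype.card_bool, Fintype.card_subtype]
    unfold Circuit.wildGates
    push_cast
    congr!
  calc (B.card : ℝ) ≤ E.card + ∑ γ : C.Wild → Bool, ((S γ).card : ℝ) := hBc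
    _ ≤ 2 ^ n * (C.G / p ^ ℓ) + ∑ _γ : C.Wild → Bool,
        2 * Real.exp (-((k : ℝ) / 12800)) * 2 ^ n := by
      gcongr with γ _
      exact hSb γ
    _ = _ := by
      rw [Finset.sum_const, Finset.card_univ, nsmul_eq_mul, hcW]
      ring

end H746R3.Inv
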