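import Pool.Agent.H746R3.Inv.Count

/-!
# Numerical bounds for the direct product theorem
-/

namespace H746R3.Inv

open Finset

theorem centralBinom_sq (r : ℕ) : (r.centralBinom) ^ 2 * (3 * r + 1) ≤ 16 ^ r := by
  induction r with
  | zero => simp
  | succ r ih =>
    have h1 := Nat.succ_mul_centralBinom_succ r
    have h2 : ((r + 1) * (r + 1).centralBinom) ^ 2 * (3 * (r + 1) + 1) ≤
        (r + 1) ^ 2 * 16 ^ (r + 1) := by
      rw [h1]
      have h3 : (2 * (2 * r + 1)) ^ 2 * (3 * (r + 1) + 1) ≤ 16 * (r + 1) ^ 2 * (3 * r + 1) := by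
        nlinarith
      calc (2 * (2 * r + 1) * r.centralBinom) ^ 2 * (3 * (r + 1) + 1)
          = r.centralBinom ^ 2 * ((2 * (2 * r + 1)) ^ 2 * (3 * (r + 1) + 1)) := by ring
        _ ≤ r.centralBinom ^ 2 * (16 * (r + 1) ^ 2 * (3 * r + 1)) := Nat.mul_le_mul_left _ h3
        _ = 16 * (r + 1) ^ 2 * (r.centralBinom ^ 2 * (3 * r + 1)) := by ring
        _ ≤ 16 * (r + 1) ^ 2 * 16 ^ r := Nat.mul_le_mul_left _ ih
        _ = _ := by rw [pow_succ 16 r]; ring
    rw [mul_pow, mul_assoc] at h2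
    exact Nat.le_of_mul_le_mul_left h2 (by positivity)

theorem count_small {V : Type*} [Fintype V] [DecidableEq V] (r d m : ℕ) (hr : 0 < r)
    (hdr : d ≤ r) (hV : Fintype.card V = m * (2 * r)) :
    ((univ.filter fun B : Finset V => B.card ≤ m * (r - d)).card : ℝ) ≤
      (4 ^ r * Real.exp (-((d : ℝ) ^ 2 / r))) ^ m := by
  set lam : ℝ := 2 * d / r with hlam
  set x : ℝ := Real.exp (-lam) with hx
  have hr' : (0 : ℝ) < r := by exact_mod_cast hr
  have hx0 : 0 < x := Real.exp_pos _
  have hx1 : x ≤ 1 := by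
    rw [hx, Real.exp_le_one_iff, neg_nonpos, hlam]; positivity
  have h1 : ∑ B : Finset V, x ^ B.card = (1 + x) ^ (m * (2 * r)) := by
    have := Fintype.sum_pow_mul_eq_add_pow V x 1
    simp only [one_pow, mul_one] at this
    rw [this, hV, add_comm]
  have h2 : ((univ.filter fun B : Finset V => B.card ≤ m * (r - d)).card : ℝ) *
      x ^ (m * (r - d)) ≤ (1 + x) ^ (m * (2 * r)) := by
    rw [← h1]
    calc ((univ.filter fun B : Finset V => B.card ≤ m * (r - d)).card : ℝ) * x ^ (m * (r - d))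
        = ∑ B ∈ univ.filter fun B : Finset V => B.card ≤ m * (r - d), x ^ (m * (r - d)) := by
          rw [Finset.sum_const, nsmul_eq_mul]
      _ ≤ ∑ B ∈ univ.filter fun B : Finset V => B.card ≤ m * (r - d), x ^ B.card := by
          refine Finset.sum_le_sum fun B hB => ?_
          exact pow_le_pow_of_le_one hx0.le hx1 (Finset.mem_filter.1 hB).2
      _ ≤ ∑ B : Finset V, x ^ B.card :=
          Finset.sum_le_sum_of_subset_of_nonneg (Finset.filter_subset _ _)
            fun _ _ _ => by positivity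
  have h3 : (1 + x) ^ (2 * r) ≤ x ^ (r - d) * (4 ^ r * Real.exp (-((d : ℝ) ^ 2 / r))) := by
    have e1 : 1 + x = Real.exp (-lam / 2) * (2 * Real.cosh (lam / 2)) := by
      rw [Real.cosh_eq, hx]
      have : Real.exp (-lam / 2) * (2 * ((Real.exp (lam / 2) + Real.exp (-(lam / 2))) / 2)) =
          Real.exp (-lam / 2) * Real.exp (lam / 2) + Real.exp (-lam / 2) * Real.exp (-(lam / 2)) := by
        ring
      rw [this, ← Real.exp_add, ← Real.exp_add]
      have a1 : -lam / 2 + lam / 2 = 0 := by ring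
      have a2 : -lam / 2 + -(lam / 2) = -lam := by ring
      rw [a1, a2, Real.exp_zero]
    have e2 : Real.cosh (lam / 2) ≤ Real.exp ((lam / 2) ^ 2 / 2) := Real.cosh_le_exp_half_sq _
    have e3 : 0 < Real.cosh (lam / 2) := Real.cosh_pos _
    calc (1 + x) ^ (2 * r) ≤ (Real.exp (-lam / 2) * (2 * Real.exp ((lam / 2) ^ 2 / 2))) ^ (2 * r) := by
          rw [e1]; gcongr
      _ = x ^ (r - d) * (4 ^ r * Real.exp (-((d : ℝ) ^ 2 / r))) := by
          rw [mul_pow, mul_pow, hx, ← Real.exp_nat_mul, ← Real.exp_nat_mul, ← Real.exp_nat_mul,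
            pow_mul (2 : ℝ) 2 r]
          rw [mul_left_comm, mul_left_comm (Real.exp (((r - d : ℕ) : ℝ) * -lam)), ← Real.exp_add,
            ← Real.exp_add]
          norm_num
          rw [Nat.cast_sub hdr, hlam]
          field_simp
          ring
  have h4 : ((univ.filter fun B : Finset V => B.card ≤ m * (r - d)).card : ℝ) *
      x ^ (m * (r - d)) ≤ x ^ (m * (r - d)) * (4 ^ r * Real.exp (-((d : ℝ) ^ 2 / r))) ^ m := by
    calc _ ≤ (1 + x) ^ (m * (2 * r)) := h2
      _ = ((1 + x) ^ (2 * r)) ^ m := by rw [← pow_mul, mul_comm m]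
      _ ≤ (x ^ (r - d) * (4 ^ r * Real.exp (-((d : ℝ) ^ 2 / r)))) ^ m := by gcongr
      _ = _ := by rw [mul_pow, ← pow_mul, mul_comm m (r - d)]
  rw [mul_comm] at h4
  exact le_of_mul_le_mul_left h4 (by positivity)

theorem sum_sec {J : Type*} [Fintype J] [DecidableEq J] {n : ℕ} (g : Finset (Fin n) → ℝ) :
    ∑ A : Finset (J × Fin n), ∏ j, g (sec A j) = (∑ c : Finset (Fin n), g c) ^ Fintype.card J := by
  have h1 : (∑ c : Finset (Fin n), g c) ^ Fintype.card J =
      ∑ c : J → Finset (Fin n), ∏ j, g (c j) := by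
    rw [← Finset.card_univ, ← Finset.prod_const, Finset.prod_univ_sum, Fintype.piFinset_univ]
  rw [h1]
  refine Finset.sum_bij' (fun A _ => sec A) (fun c _ => univ.filter fun v => v.2 ∈ c v.1)
    (fun _ _ => Finset.mem_univ _) (fun _ _ => Finset.mem_univ _) ?_ ?_ ?_
  · intro A _
    ext v
    simp [sec]
  · intro c _
    funext j
    ext t
    simp [sec]
  · intro A _
    rfl

theorem sum_geom (x : ℝ) (hx0 : 0 ≤ x) (hx1 : x < 1) (n : ℕ) :
    ∑ t ∈ range n, x ^ t ≤ 1 / (1 - x) := by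
  rw [le_div_iff₀ (by linarith), geom_sum_mul_neg]
  have : 0 ≤ x ^ n := by positivity
  linarith

theorem block_sum (r d : ℕ) (hd : 1 ≤ d) (hr : 400 * d ^ 2 ≤ r) :
    Real.exp 1 * ∑ c : Finset (Fin (2 * r)),
      Real.exp (-(1 / (2 * d)) * |(c.card : ℝ) - r|) ≤ 4 ^ r / 2 := by
  set lam : ℝ := 1 / (2 * d) with hlam
  have hd' : (1 : ℝ) ≤ d := by exact_mod_cast hd
  have hlam0 : 0 < lam := by rw [hlam]; positivity
  set x : ℝ := Real.exp (-lam) with hx
  have hx0 : 0 < x := Real.exp_pos _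
  have hx1 : x < 1 := by
    rw [hx, Real.exp_lt_one_iff]; linarith
  -- sum over the sizes
  have h1 : ∑ c : Finset (Fin (2 * r)), Real.exp (-lam * |(c.card : ℝ) - r|) =
      ∑ a ∈ range (2 * r + 1), ((2 * r).choose a : ℝ) * Real.exp (-lam * |(a : ℝ) - r|) := by
    have := Finset.sum_powerset_apply_card (x := (univ : Finset (Fin (2 * r))))
      (fun a : ℕ => Real.exp (-lam * |(a : ℝ) - r|))
    simp only [Finset.powerset_univ, Finset.card_univ, Fintype.card_fin, nsmul_eq_mul] at this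
    exact this
  have h2 : ∑ a ∈ range (2 * r + 1), Real.exp (-lam * |(a : ℝ) - r|) ≤ 2 / (1 - x) := by
    have e1 : 2 * r + 1 = (r + 1) + r := by ring
    rw [e1, Finset.sum_range_add]
    have e2 : ∑ a ∈ range (r + 1), Real.exp (-lam * |(a : ℝ) - r|) = ∑ t ∈ range (r + 1), x ^ t := by
      rw [← Finset.sum_range_reflect]
      refine Finset.sum_congr rfl fun a ha => ?_
      have ha' : a ≤ r := Nat.lt_succ_iff.1 (Finset.mem_range.1 ha)
      have e3 : r + 1 - 1 - a = r - a := by omega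
      rw [e3, Nat.cast_sub ha', hx, ← Real.exp_nat_mul]
      congr 1
      have e4 : (r : ℝ) - a - r = -a := by ring
      rw [e4, abs_neg, abs_of_nonneg (by positivity)]
      ring
    have e5 : ∑ a ∈ range r, Real.exp (-lam * |((r + 1 + a : ℕ) : ℝ) - r|) ≤
        ∑ t ∈ range r, x ^ t := by
      refine Finset.sum_le_sum fun a _ => ?_
      have e6 : ((r + 1 + a : ℕ) : ℝ) - r = a + 1 := by push_cast; ring
      rw [e6, abs_of_nonneg (by positivity), hx, ← Real.exp_nat_mul]
      refine Real.exp_le_exp.2 ?_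
      nlinarith
    rw [e2]
    have e7 := sum_geom x hx0.le hx1 (r + 1)
    have e8 := sum_geom x hx0.le hx1 r
    have e9 : 2 / (1 - x) = 1 / (1 - x) + 1 / (1 - x) := by ring
    linarith
  have h3 : 2 / (1 - x) ≤ 6 * d := by
    have e1 : x ≤ 1 / (1 + lam) := by
      rw [hx, Real.exp_neg, inv_eq_one_div]
      have := Real.add_one_le_exp lam
      exact one_div_le_one_div_of_le (by linarith) (by linarith)
    have e2 : lam / (1 + lam) ≤ 1 - x := by
      have : 1 - 1 / (1 + lam) = lam / (1 + lam) := by field_simp; ring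
      linarith
    have e3 : 0 < lam / (1 + lam) := by positivity
    calc 2 / (1 - x) ≤ 2 / (lam / (1 + lam)) := by gcongr
      _ = 2 * (1 + 2 * d) := by rw [hlam]; field_simp; ring
      _ ≤ 6 * d := by linarith
  have hc := centralBinom_sq r
  have hc' : (r.centralBinom : ℝ) ^ 2 * (3 * r + 1) ≤ 16 ^ r := by exact_mod_cast hc
  have hexp : Real.exp 1 < 2.7182818286 := Real.exp_one_lt_d9
  have h4 : Real.exp 1 * (r.centralBinom * (6 * d)) ≤ 4 ^ r / 2 := by
    have e1 : (12 * Real.exp 1 * d) ^ 2 ≤ 3 * r + 1 := by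
      have e2 : (400 : ℝ) * d ^ 2 ≤ r := by exact_mod_cast hr
      have e3 : (Real.exp 1) ^ 2 ≤ 7.39 := by nlinarith [Real.exp_pos 1]
      nlinarith
    have e4 : (12 * Real.exp 1 * d * r.centralBinom) ^ 2 ≤ (4 ^ r) ^ 2 := by
      have e5 : ((4 : ℝ) ^ r) ^ 2 = 16 ^ r := by rw [← pow_mul, mul_comm, pow_mul]; norm_num
      rw [e5, mul_pow]
      calc (12 * Real.exp 1 * d) ^ 2 * (r.centralBinom : ℝ) ^ 2 ≤
            (3 * r + 1) * (r.centralBinom : ℝ) ^ 2 := by gcongr
        _ ≤ _ := by linarith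
    have e6 := abs_le_of_sq_le_sq e4 (by positivity)
    have e7 := (abs_le.1 e6).2
    linarith
  rw [h1]
  calc Real.exp 1 * ∑ a ∈ range (2 * r + 1), ((2 * r).choose a : ℝ) * Real.exp (-lam * |(a : ℝ) - r|)
      ≤ Real.exp 1 * ∑ a ∈ range (2 * r + 1), (r.centralBinom : ℝ) * Real.exp (-lam * |(a : ℝ) - r|) := by
        gcongr with a _
        exact Nat.choose_le_centralBinom a r
    _ = Real.exp 1 * (r.centralBinom * ∑ a ∈ range (2 * r + 1), Real.exp (-lam * |(a : ℝ) - r|)) := by
        congr 1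
        rw [Finset.mul_sum]
    _ ≤ Real.exp 1 * (r.centralBinom * (6 * d)) := by
        gcongr
        exact h2.trans h3
    _ ≤ _ := h4

theorem count_atypical {J : Type*} [Fintype J] [DecidableEq J] (r d : ℕ) (hd : 1 ≤ d)
    (hr : 400 * d ^ 2 ≤ r) :
    ((univ.filter fun A : Finset (J × Fin (2 * r)) =>
        Fintype.card J * (r - d) <
          ∑ j, (min (sec A j).card (2 * r - (sec A j).card) + d)).card : ℝ) ≤
      (4 ^ r / 2) ^ Fintype.card J := by
  set lam : ℝ := 1 / (2 * d) with hlam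
  have hd' : (1 : ℝ) ≤ d := by exact_mod_cast hd
  have hlam0 : 0 < lam := by rw [hlam]; positivity
  have hdr : d ≤ r := by nlinarith
  have h1 : ∀ A ∈ (univ.filter fun A : Finset (J × Fin (2 * r)) =>
        Fintype.card J * (r - d) <
          ∑ j, (min (sec A j).card (2 * r - (sec A j).card) + d)),
      (1 : ℝ) ≤ ∏ j, (Real.exp 1 * Real.exp (-lam * |((sec A j).card : ℝ) - r|)) := by
    intro A hA
    have hA' := (Finset.mem_filter.1 hA).2
    have h2 : ((Fintype.card J * (r - d) : ℕ) : ℝ) <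
        ((∑ j, (min (sec A j).card (2 * r - (sec A j).card) + d) : ℕ) : ℝ) := by
      exact_mod_cast hA'
    rw [Nat.cast_mul, Nat.cast_sub hdr, Nat.cast_sum] at h2
    have h3 : ∀ j : J, (((min (sec A j).card (2 * r - (sec A j).card) + d : ℕ)) : ℝ) ≤
        r - |((sec A j).card : ℝ) - r| + d := by
      intro j
      have h4 : (sec A j).card ≤ 2 * r := by simpa using Finset.card_le_univ (sec A j)
      rw [Nat.cast_add, Nat.cast_min, Nat.cast_sub h4]
      push_cast
      have h5 : min ((sec A j).card : ℝ) (2 * r - (sec A j).card) ≤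
          r - |((sec A j).card : ℝ) - r| := by
        rcases abs_cases (((sec A j).card : ℝ) - r) with ⟨h, h'⟩ | ⟨h, h'⟩
        · rw [h]
          exact (min_le_right _ _).trans (by linarith)
        · rw [h]
          exact (min_le_left _ _).trans (by linarith)
      linarith
    have h4 : (Fintype.card J : ℝ) * (r - d) < ∑ j, (r - |((sec A j).card : ℝ) - r| + d) :=
      lt_of_lt_of_le h2 (Finset.sum_le_sum fun j _ => h3 j)
    have h5 : ∑ j, (r - |((sec A j).card : ℝ) - r| + d) =
        Fintype.card J * (r + d) - ∑ j, |((sec A j).card : ℝ) - r| := by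
      rw [Finset.sum_add_distrib, Finset.sum_sub_distrib]
      simp only [Finset.sum_const, Finset.card_univ, nsmul_eq_mul]
      ring
    have h6 : ∑ j, |((sec A j).card : ℝ) - r| ≤ 2 * d * Fintype.card J := by
      rw [h5] at h4
      linarith
    simp only [← Real.exp_add]
    rw [← Real.exp_sum, Real.one_le_exp_iff, Finset.sum_add_distrib, ← Finset.mul_sum]
    simp only [Finset.sum_const, Finset.card_univ, nsmul_eq_mul, mul_one]
    have h7 : lam * ∑ j, |((sec A j).card : ℝ) - r| ≤ lam * (2 * d * Fintype.card J) :=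
      mul_le_mul_of_nonneg_left h6 hlam0.le
    have h8 : lam * (2 * d * Fintype.card J) = Fintype.card J := by
      rw [hlam]; field_simp
    linarith
  calc ((univ.filter fun A : Finset (J × Fin (2 * r)) =>
        Fintype.card J * (r - d) <
          ∑ j, (min (sec A j).card (2 * r - (sec A j).card) + d)).card : ℝ)
      = ∑ A ∈ (univ.filter fun A : Finset (J × Fin (2 * r)) =>
        Fintype.card J * (r - d) <
          ∑ j, (min (sec A j).card (2 * r - (sec A j).card) + d)), (1 : ℝ) := by simp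
    _ ≤ ∑ A ∈ (univ.filter fun A : Finset (J × Fin (2 * r)) =>
        Fintype.card J * (r - d) <
          ∑ j, (min (sec A j).card (2 * r - (sec A j).card) + d)),
          ∏ j, (Real.exp 1 * Real.exp (-lam * |((sec A j).card : ℝ) - r|)) :=
        Finset.sum_le_sum h1
    _ ≤ ∑ A : Finset (J × Fin (2 * r)),
          ∏ j, (Real.exp 1 * Real.exp (-lam * |((sec A j).card : ℝ) - r|)) :=
        Finset.sum_le_sum_of_subset_of_nonneg (Finset.filter_subset _ _)
          fun _ _ _ => Finset.prod_nonneg fun _ _ => by positivity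
    _ = (∑ c : Finset (Fin (2 * r)), Real.exp 1 *
          Real.exp (-lam * |(c.card : ℝ) - r|)) ^ Fintype.card J :=
        sum_sec (fun c => Real.exp 1 * Real.exp (-lam * |(c.card : ℝ) - r|))
    _ ≤ _ := by
        rw [← Finset.mul_sum]
        refine pow_le_pow_left₀ ?_ (block_sum r d hd hr) _
        positivity

/-- The direct product theorem for low degree functions: if functions of degree at most `d`
compute the products over `|J|` disjoint blocks of `2r` bits simultaneously on `S`, then `S` is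
exponentially small. -/
theorem dp_bound {K : Type*} [Field K] {J : Type*} [Fintype J] [DecidableEq J] (r d : ℕ)
    (hd : 1 ≤ d) (hr : 400 * d ^ 2 ≤ r) (hr' : r ≤ 1600 * d ^ 2) (ζ : K) (hζ0 : ζ ≠ 0)
    (hζ1 : ζ ≠ 1) (S : Finset (J × Fin (2 * r) → Bool))
    (Q : J → (J × Fin (2 * r) → Bool) → K)
    (hQ : ∀ j, Q j ∈ LD K (J × Fin (2 * r)) d)
    (hS : ∀ b ∈ S, ∀ j, Q j b = ∏ t, zz ζ (b (j, t))) :
    (S.card : ℝ) ≤ 2 * Real.exp (-((Fintype.card J : ℝ) / 1600)) *
      2 ^ (2 * r * Fintype.card J) := by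
  set m := Fintype.card J with hm
  have hr0 : 0 < r := by nlinarith
  have hdr : d ≤ r := by nlinarith
  have h1 := dp_count r d (m * (r - d)) ζ hζ0 hζ1 S Q hQ hS
  have h2 : (S.card : ℝ) ≤
      ((univ.filter fun B : Finset (J × Fin (2 * r)) => B.card ≤ m * (r - d)).card : ℝ) +
      ((univ.filter fun A : Finset (J × Fin (2 * r)) =>
        m * (r - d) < ∑ j, (min (sec A j).card (2 * r - (sec A j).card) + d)).card : ℝ) := by
    exact_mod_cast h1
  have h3 := count_small (V := J × Fin (2 * r)) r d m hr0 hdr (by simp [hm])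
  have h4 := count_atypical (J := J) r d hd hr
  have hr0' : (0 : ℝ) < r := by exact_mod_cast hr0
  have h5 : Real.exp (-((d : ℝ) ^ 2 / r)) ≤ Real.exp (-(1 / 1600)) := by
    refine Real.exp_le_exp.2 (neg_le_neg ?_)
    rw [div_le_div_iff₀ (by norm_num) hr0']
    have : (r : ℝ) ≤ 1600 * d ^ 2 := by exact_mod_cast hr'
    linarith
  have h6 : (1 / 2 : ℝ) ≤ Real.exp (-(1 / 1600)) := by
    have := Real.add_one_le_exp (-(1 / 1600 : ℝ))
    linarith
  have h7 : Real.exp (-((m : ℝ) / 1600)) = Real.exp (-(1 / 1600)) ^ m := by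
    rw [← Real.exp_nat_mul]; congr 1; ring
  have h8 : (2 : ℝ) ^ (2 * r * m) = (4 ^ r) ^ m := by
    rw [pow_mul, pow_mul]; norm_num
  rw [h7, h8]
  calc (S.card : ℝ) ≤ _ := h2
    _ ≤ (4 ^ r * Real.exp (-((d : ℝ) ^ 2 / r))) ^ m + (4 ^ r / 2) ^ m := add_le_add h3 h4
    _ ≤ (4 ^ r * Real.exp (-(1 / 1600))) ^ m + (4 ^ r * Real.exp (-(1 / 1600))) ^ m := by
        gcongr
        rw [div_eq_mul_one_div]
        gcongr
    _ = _ := by rw [mul_pow]; ring

end H746R3.Inv
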