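import Pool.Agent.H746R3.Inv.Num

/-!
# Restriction to subcubes; pairs of points
-/

namespace H746R3.Inv

open Finset

variable {V W : Type*} [Fintype V] [DecidableEq V] [Fintype W] [DecidableEq W]

open Classical in
/-- some subcube is at least as dense as the average -/
theorem exists_slice (π : W → V) (hπ : Function.Injective π) (S : Finset (V → Bool)) :
    ∃ c : V → Bool, S.card * 2 ^ Fintype.card W ≤
      2 ^ Fintype.card V * (univ.filter fun b : W → Bool => Function.extend π b c ∈ S).card := by
  have h1 : S.card * 2 ^ Fintype.card W ≤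
      ∑ c : V → Bool, (univ.filter fun b : W → Bool => Function.extend π b c ∈ S).card := by
    have e1 : S.card * 2 ^ Fintype.card W = (S ×ˢ (univ : Finset (W → Bool))).card := by
      rw [Finset.card_product, Finset.card_univ, Fintype.card_fun, Fintype.card_bool]
    have e2 : ∑ c : V → Bool, (univ.filter fun b : W → Bool => Function.extend π b c ∈ S).card =
        (univ.filter fun q : (V → Bool) × (W → Bool) =>
          Function.extend π q.2 q.1 ∈ S).card := by
      rw [Finset.card_filter, Fintype.sum_prod_type]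
      refine Finset.sum_congr rfl fun c _ => ?_
      rw [Finset.card_filter]
    rw [e1, e2]
    refine Finset.card_le_card_of_injOn (fun q => (Function.extend π q.2 q.1, q.1 ∘ π)) ?_ ?_
    · rintro ⟨s, e⟩ hq
      rw [Finset.mem_coe, Finset.mem_product] at hq
      rw [Finset.mem_coe, Finset.mem_filter]
      refine ⟨Finset.mem_univ _, ?_⟩
      simp only
      have : Function.extend π (s ∘ π) (Function.extend π e s) = s := by
        funext v
        by_cases hv : ∃ w, π w = v
        · obtain ⟨w, rfl⟩ := hv
          rw [hπ.extend_apply]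
          rfl
        · rw [Function.extend_apply' _ _ _ hv, Function.extend_apply' _ _ _ hv]
      rw [this]
      exact hq.1
    · rintro ⟨s, e⟩ _ ⟨s', e'⟩ _ hq
      simp only [Prod.mk.injEq] at hq
      obtain ⟨h1, h2⟩ := hq
      have hs : s = s' := by
        funext v
        by_cases hv : ∃ w, π w = v
        · obtain ⟨w, rfl⟩ := hv
          exact congrFun h2 w
        · have := congrFun h1 v
          rwa [Function.extend_apply' _ _ _ hv, Function.extend_apply' _ _ _ hv] at this
      have he : e = e' := by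
        funext w
        have := congrFun h1 (π w)
        rwa [hπ.extend_apply, hπ.extend_apply] at this
      rw [hs, he]
  have h2 : (Finset.univ : Finset (V → Bool)).Nonempty := Finset.univ_nonempty
  obtain ⟨c, _, hc⟩ := Finset.exists_max_image (univ : Finset (V → Bool))
    (fun c => (univ.filter fun b : W → Bool => Function.extend π b c ∈ S).card) h2
  refine ⟨c, h1.trans ?_⟩
  calc ∑ c' : V → Bool, (univ.filter fun b : W → Bool => Function.extend π b c' ∈ S).card
      ≤ ∑ _c' : V → Bool, (univ.filter fun b : W → Bool => Function.extend π b c ∈ S).card :=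
        Finset.sum_le_sum fun c' hc' => hc c' hc'
    _ = _ := by
        rw [Finset.sum_const, Finset.card_univ, Fintype.card_fun, Fintype.card_bool, smul_eq_mul]

variable {K : Type*} [Field K]

omit [Fintype V] [Fintype W] in
theorem extend_mem (π : W → V) (hπ : Function.Injective π) (c : V → Bool)
    {f : (V → Bool) → K} {d : ℕ} (hf : f ∈ LD K V d) :
    (fun b : W → Bool => f (Function.extend π b c)) ∈ LD K W d := by
  refine comp_mem (fun b : W → Bool => Function.extend π b c) ?_ hf
  intro v
  by_cases hv : ∃ w, π w = v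
  · obtain ⟨w, rfl⟩ := hv
    have : (fun y : W → Bool => (bK (Function.extend π y c (π w)) : K)) =
        fun y => bK (y w) := by
      funext y; rw [hπ.extend_apply]
    rw [this]
    exact coord_mem w
  · have : (fun y : W → Bool => (bK (Function.extend π y c v) : K)) = fun _ => bK (c v) := by
      funext y; rw [Function.extend_apply' _ _ _ hv]
    rw [this]
    exact const_mem _ _

/-- few pairs of points agree in more than three quarters of the coordinates -/
theorem card_close {α : Type*} [Fintype α] [DecidableEq α] (hα : Fintype.card α = 4) {m : ℕ} :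
    ((univ.filter fun q : (Fin m → α) × (Fin m → α) =>
      4 * (univ.filter fun j => q.1 j ≠ q.2 j).card < m).card : ℝ) ≤ (16 / Real.sqrt 3) ^ m := by
  have h3 : (0 : ℝ) < Real.sqrt 3 := Real.sqrt_pos.2 (by norm_num)
  have hsq : Real.sqrt 3 * Real.sqrt 3 = 3 := Real.mul_self_sqrt (by norm_num)
  have h31 : 1 ≤ Real.sqrt 3 := by
    rw [Real.one_le_sqrt]; norm_num
  set g : α → α → ℝ := fun a b => Real.sqrt 3 * (if a ≠ b then 1 / 9 else 1) with hg
  have hg0 : ∀ a b, 0 ≤ g a b := by
    intro a b; simp only [hg]; split_ifs <;> positivity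
  have h1 : ∀ q ∈ (univ.filter fun q : (Fin m → α) × (Fin m → α) =>
      4 * (univ.filter fun j => q.1 j ≠ q.2 j).card < m), (1 : ℝ) ≤ ∏ j, g (q.1 j) (q.2 j) := by
    intro q hq
    have hq' := (Finset.mem_filter.1 hq).2
    simp only [hg]
    rw [Finset.prod_mul_distrib, Finset.prod_const, Finset.card_univ, Fintype.card_fin,
      Finset.prod_ite, Finset.prod_const, Finset.prod_const_one, mul_one]
    set D := (univ.filter fun j => q.1 j ≠ q.2 j).card with hD
    have h2 : Real.sqrt 3 ^ m = Real.sqrt 3 ^ (4 * D) * Real.sqrt 3 ^ (m - 4 * D) := by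
      rw [← pow_add]; congr 1; omega
    have h4 : Real.sqrt 3 ^ (4 * D) = 9 ^ D := by
      rw [pow_mul]
      congr 1
      calc Real.sqrt 3 ^ 4 = (Real.sqrt 3 * Real.sqrt 3) * (Real.sqrt 3 * Real.sqrt 3) := by ring
        _ = 9 := by rw [hsq]; norm_num
    rw [h2, h4]
    have h5 : (9 : ℝ) ^ D * (1 / 9) ^ D = 1 := by
      rw [← mul_pow]; norm_num
    calc (1 : ℝ) ≤ Real.sqrt 3 ^ (m - 4 * D) := one_le_pow₀ h31
      _ = (9 ^ D * (1 / 9) ^ D) * Real.sqrt 3 ^ (m - 4 * D) := by rw [h5, one_mul]
      _ = _ := by ring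
  calc ((univ.filter fun q : (Fin m → α) × (Fin m → α) =>
      4 * (univ.filter fun j => q.1 j ≠ q.2 j).card < m).card : ℝ)
      = ∑ q ∈ (univ.filter fun q : (Fin m → α) × (Fin m → α) =>
      4 * (univ.filter fun j => q.1 j ≠ q.2 j).card < m), (1 : ℝ) := by simp
    _ ≤ ∑ q ∈ (univ.filter fun q : (Fin m → α) × (Fin m → α) =>
      4 * (univ.filter fun j => q.1 j ≠ q.2 j).card < m), ∏ j, g (q.1 j) (q.2 j) :=
        Finset.sum_le_sum h1
    _ ≤ ∑ q : (Fin m → α) × (Fin m → α), ∏ j, g (q.1 j) (q.2 j) :=
        Finset.sum_le_sum_of_subset_of_nonneg (Finset.filter_subset _ _)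
          fun _ _ _ => Finset.prod_nonneg fun _ _ => hg0 _ _
    _ = ∑ c : Fin m → α × α, ∏ j, g (c j).1 (c j).2 := by
        rw [← (Equiv.arrowProdEquivProdArrow (Fin m) (fun _ => α) (fun _ => α)).sum_comp]
        rfl
    _ = (∑ c : α × α, g c.1 c.2) ^ m := by
        have := Finset.prod_univ_sum (fun _ : Fin m => (univ : Finset (α × α)))
          (fun _ c => g c.1 c.2)
        rw [Fintype.piFinset_univ] at this
        rw [← this, Finset.prod_const, Finset.card_univ, Fintype.card_fin]
    _ = (16 / Real.sqrt 3) ^ m := by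
        congr 1
        rw [Fintype.sum_prod_type]
        simp only [hg]
        have h6 : ∀ a : α, ∑ b : α, Real.sqrt 3 * (if a ≠ b then (1 / 9 : ℝ) else 1) =
            Real.sqrt 3 * (4 / 3) := by
          intro a
          rw [← Finset.mul_sum]
          congr 1
          have h7 : ∀ b : α, (if a ≠ b then (1 / 9 : ℝ) else 1) =
              1 / 9 + (if a = b then (8 / 9 : ℝ) else 0) := by
            intro b
            by_cases h : a = b
            · simp [h]; norm_num
            · simp [h]
          rw [Finset.sum_congr rfl fun b _ => h7 b, Finset.sum_add_distrib, Finset.sum_const,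
            Finset.card_univ, hα, Finset.sum_ite_eq]
          simp
          norm_num
        rw [Finset.sum_congr rfl fun a _ => h6 a, Finset.sum_const, Finset.card_univ, hα]
        rw [nsmul_eq_mul]
        field_simp
        rw [pow_two, hsq]
        norm_num

open Classical in
theorem pair_bound {β α : Type*} [Fintype β] [Fintype α] [DecidableEq α] [Nonempty β]
    (hα : Fintype.card α = 4) {m : ℕ} (T : Finset (β × (Fin m → α))) (ε : ℝ) (hε : 0 ≤ ε)
    (h : ∀ e₀ e₁ : Fin m → α, m ≤ 4 * (univ.filter fun j => e₀ j ≠ e₁ j).card →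
      ((univ.filter fun b : β => (b, e₀) ∈ T ∧ (b, e₁) ∈ T).card : ℝ) ≤ ε * Fintype.card β) :
    (T.card : ℝ) ^ 2 ≤ (Fintype.card β * 4 ^ m) ^ 2 * (ε + (1 / Real.sqrt 3) ^ m) := by
  have hβ : (0 : ℝ) < Fintype.card β := by exact_mod_cast Fintype.card_pos
  set N : (Fin m → α) × (Fin m → α) → ℝ := fun q =>
    ((univ.filter fun b : β => (b, q.1) ∈ T ∧ (b, q.2) ∈ T).card : ℝ) with hN
  set tb : β → ℝ := fun b => ((univ.filter fun e : Fin m → α => (b, e) ∈ T).card : ℝ) with htb
  have h1 : (T.card : ℝ) = ∑ b, tb b := by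
    simp only [htb]
    have : T.card = ∑ b : β, (univ.filter fun e : Fin m → α => (b, e) ∈ T).card := by
      have e1 : T = univ.filter (fun q : β × (Fin m → α) => q ∈ T) := by ext; simp
      conv_lhs => rw [e1]
      rw [Finset.card_filter, Fintype.sum_prod_type]
      refine Finset.sum_congr rfl fun b _ => ?_
      rw [Finset.card_filter]
    rw [this]; push_cast; rfl
  have h2 : ∑ b, tb b ^ 2 = ∑ q, N q := by
    have e1 : ∀ b, tb b ^ 2 = ∑ q : (Fin m → α) × (Fin m → α),
        (if (b, q.1) ∈ T ∧ (b, q.2) ∈ T then (1 : ℝ) else 0) := by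
      intro b
      simp only [htb]
      rw [Finset.card_filter, pow_two]
      push_cast
      rw [Finset.sum_mul_sum, Fintype.sum_prod_type]
      refine Finset.sum_congr rfl fun e₀ _ => Finset.sum_congr rfl fun e₁ _ => ?_
      by_cases a1 : (b, e₀) ∈ T <;> by_cases a2 : (b, e₁) ∈ T <;> simp [a1, a2]
    rw [Finset.sum_congr rfl fun b _ => e1 b, Finset.sum_comm]
    refine Finset.sum_congr rfl fun q _ => ?_
    simp only [hN]
    rw [Finset.card_filter]
    push_cast
    rfl
  have h3 : (∑ b, tb b) ^ 2 ≤ Fintype.card β * ∑ b, tb b ^ 2 := by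
    have := Finset.sum_mul_sq_le_sq_mul_sq (univ : Finset β) (fun _ => (1 : ℝ)) tb
    simpa using this
  have hNle : ∀ q, N q ≤ Fintype.card β := by
    intro q
    simp only [hN]
    exact_mod_cast Finset.card_le_univ _
  have h4 : ∑ q, N q ≤ (4 ^ m) ^ 2 * (ε * Fintype.card β) +
      (16 / Real.sqrt 3) ^ m * Fintype.card β := by
    rw [← Finset.sum_filter_add_sum_filter_not univ (fun q : (Fin m → α) × (Fin m → α) =>
      m ≤ 4 * (univ.filter fun j => q.1 j ≠ q.2 j).card)]
    refine add_le_add ?_ ?_
    · calc ∑ q ∈ univ.filter (fun q : (Fin m → α) × (Fin m → α) =>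
            m ≤ 4 * (univ.filter fun j => q.1 j ≠ q.2 j).card), N q
          ≤ ∑ q ∈ univ.filter (fun q : (Fin m → α) × (Fin m → α) =>
            m ≤ 4 * (univ.filter fun j => q.1 j ≠ q.2 j).card), ε * Fintype.card β :=
            Finset.sum_le_sum fun q hq => h q.1 q.2 (Finset.mem_filter.1 hq).2
        _ ≤ ∑ q : (Fin m → α) × (Fin m → α), ε * Fintype.card β :=
            Finset.sum_le_sum_of_subset_of_nonneg (Finset.filter_subset _ _)
              fun _ _ _ => by positivity
        _ = (4 ^ m) ^ 2 * (ε * Fintype.card β) := by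
            rw [Finset.sum_const, Finset.card_univ, Fintype.card_prod, Fintype.card_fun,
              Fintype.card_fin, hα, nsmul_eq_mul]
            push_cast
            ring
    · calc ∑ q ∈ univ.filter (fun q : (Fin m → α) × (Fin m → α) =>
            ¬ m ≤ 4 * (univ.filter fun j => q.1 j ≠ q.2 j).card), N q
          ≤ ∑ q ∈ univ.filter (fun q : (Fin m → α) × (Fin m → α) =>
            ¬ m ≤ 4 * (univ.filter fun j => q.1 j ≠ q.2 j).card), (Fintype.card β : ℝ) :=
            Finset.sum_le_sum fun q _ => hNle q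
        _ = ((univ.filter fun q : (Fin m → α) × (Fin m → α) =>
            ¬ m ≤ 4 * (univ.filter fun j => q.1 j ≠ q.2 j).card).card : ℝ) *
              Fintype.card β := by
            rw [Finset.sum_const, nsmul_eq_mul]
        _ ≤ _ := by
            gcongr
            have := card_close hα (m := m)
            simp only [not_le]
            exact this
  rw [h1]
  calc (∑ b, tb b) ^ 2 ≤ Fintype.card β * ∑ b, tb b ^ 2 := h3
    _ = Fintype.card β * ∑ q, N q := by rw [h2]
    _ ≤ Fintype.card β * ((4 ^ m) ^ 2 * (ε * Fintype.card β) +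
      (16 / Real.sqrt 3) ^ m * Fintype.card β) := by gcongr
    _ = (Fintype.card β * 4 ^ m) ^ 2 * (ε + (1 / Real.sqrt 3) ^ m) := by
        have e1 : (16 / Real.sqrt 3 : ℝ) ^ m = (4 ^ m) ^ 2 * (1 / Real.sqrt 3) ^ m := by
          rw [← pow_mul, mul_comm m 2, pow_mul, ← mul_pow]
          congr 1
          ring
        rw [e1]; ring

end H746R3.Inv
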